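import Pool.Agent.MP_db5b97_nt.H58.Defs

/-! The quantities of the problem. -/

namespace Pool.Agent.MP_db5b97_nt.H31

open MvPolynomial

/-- tuples of `N + 1` polynomials in `N + 1` variables over the algebraic numbers -/
abbrev Pm (N : ℕ) : Type := Fin (N + 1) → MvPolynomial (Fin (N + 1)) (AlgebraicClosure ℚ)

/-- `f` is a morphism of degree `d` of `ℙᴺ` -/
def IsMor {N : ℕ} (d : ℕ) (f : Pm N) : Prop :=
  (∀ i, (f i).IsHomogeneous d) ∧
    ∀ x : Fin (N + 1) → AlgebraicClosure ℚ, (∀ i, eval x (f i) = 0) → x = 0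

/-- the field of moduli: the fixed field of the `σ` for which `f ^ σ` is conjugate to `f` -/
noncomputable def fom {N : ℕ} (f : Pm N) : IntermediateField ℚ (AlgebraicClosure ℚ) :=
  IntermediateField.fixedField (Subgroup.closure
    {σ : AlgebraicClosure ℚ ≃ₐ[ℚ] AlgebraicClosure ℚ |
      ∃ (φ : GL (Fin (N + 1)) (AlgebraicClosure ℚ)) (a : AlgebraicClosure ℚ), a ≠ 0 ∧
        ∀ i, MvPolynomial.map (σ : AlgebraicClosure ℚ →+* AlgebraicClosure ℚ) (f i)
          = C a * H58.conj φ f i})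

/-- `L` is a field of definition of `f` -/
def IsFOD {N : ℕ} (f : Pm N) (L : IntermediateField ℚ (AlgebraicClosure ℚ)) : Prop :=
  ∃ (φ : GL (Fin (N + 1)) (AlgebraicClosure ℚ)) (a : AlgebraicClosure ℚ), a ≠ 0 ∧
    ∀ i m, coeff m (C a * H58.conj φ f i) ∈ L

/-- the quantity `FOM/FOD (N, d)` -/
noncomputable def FF (N d : ℕ) : ℕ∞ :=
  ⨆ (f : Pm N) (_ : IsMor d f), ⨅ (L : IntermediateField ℚ (AlgebraicClosure ℚ)) (_ : IsFOD f L),
    Cardinal.toENat (IntermediateField.relrank (fom f) L)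

/-- the supremum over all degrees `d ≥ 2` -/
noncomputable def SS (N : ℕ) : ℕ∞ := ⨆ (d : ℕ) (_ : 2 ≤ d), FF N d

end Pool.Agent.MP_db5b97_nt.H31
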