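import Pool.Agent.MP_db5b97_nt.H31.SpecN
import Pool.Agent.MP_db5b97_nt.H31.Defs
import Pool.Agent.MP_db5b97_nt.H85.Spec2
import Pool.Agent.MP_db5b97_nt.H30.B

/-! Statements of the reduction steps with sharp bounds. -/

namespace Pool.Agent.MP_db5b97_nt.H31

open H85 Filter Topology MulAction

/-- inactive large primes do not divide the period -/
def RowEs : Prop :=
  ∀ (G X : Type) [Group G] [Fintype G] [Fintype X] [MulAction G X], ∃ x : ℕ → G,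
    ∀ p, p.Prime → Fintype.card X < p ^ 2 → (∀ a : X, x p ^ p • a = a) ∧ (¬ QA G X (x p) p →
      ∀ (A : Type) [AddCommGroup A] [DistribMulAction G A], (∀ Q : Subgroup G, H90 A Q) →
      ∀ M : AddSubgroup (X →₀ ℤ), Stab (⊤ : Subgroup G) M →
        ∃ t : ℕ, t.Coprime p ∧ Kill A (⊤ : Subgroup G) M t)

/-- a proper supplement -/
def RowSUP : Prop :=
  ∀ (U Y : Type) [Group U] [MulAction U Y] [Finite Y] (Q : Subgroup U) (p : ℕ), p.Prime →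
    Q.Normal → Nat.card (orbitRel.Quotient Q Y) < p →
    (∀ g ∈ Q, ∀ h ∈ Q, ∀ y : Y, g • h • y = h • g • y) → (∀ g ∈ Q, ∀ y : Y, g ^ p • y = y) →
    (∃ g ∈ Q, ∃ y : Y, g • y ≠ y) →
    ∃ U' : Subgroup U, (∀ u : U, (∀ y : Y, u • y = y) → u ∈ U') ∧
      (∀ u : U, ∃ g ∈ Q, g * u ∈ U') ∧ ¬ Q ≤ U'

/-- for a minimal subgroup the large Sylow subgroups of the kernel are commutative -/
def RowNA : Prop :=
  ∀ (E W : Type) [Group E] [AddCommGroup W] [Module Om W] [FiniteDimensional Om W]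
    [DistribMulAction E W] (π : E →* Ga) (E0 U : Subgroup E) (p : ℕ), H30.Ctx W π E0 →
    Opn π E0 U → (∀ U' ≤ U, Opn π E0 U' → U'.map π = U.map π → U ⊓ π.ker ≤ U') →
    H30.Nil (U ⊓ π.ker) → p.Prime → p ≠ 2 → Module.finrank Om W < p ^ 2 →
    ¬ H30.NA (U ⊓ π.ker) p (⊤ : Submodule Om W)

/-- the index is at most `p` up to a factor prime to `p` -/
def RowIDXs : Prop :=
  ∀ (p : ℕ) (X : Finset Om) (H N : Subgroup Ga) (M : AddSubgroup (Om →₀ ℤ))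
    (c : Ga → (Om →₀ ℤ) → Un Om) (r : ℕ), p.Prime → p ≠ 2 → X.card < p * (p - 1) →
    IsOpen (N : Set Ga) → N ≤ H → (∀ σ ∈ H, ∀ ν ∈ N, σ * ν * σ⁻¹ ∈ N) →
    (∃ i : Om, i ^ 2 = -1 ∧ ∀ σ ∈ H, σ i = i) → (∀ σ ∈ H, ∀ x ∈ X, σ x ∈ X) →
    (∀ σ ∈ H, σ ∈ N ↔ ∀ x ∈ X, σ x = x) → 0 < r → (∀ y ∈ M, y.support ⊆ X) →
    (∀ x ∈ X, Finsupp.single x (r : ℤ) ∈ M) → Stab H M → Coc H M c →
    (∀ ν ∈ N, ∀ y ∈ M, c ν y = 0) →
    ∃ H' : Subgroup Ga, IsOpen (H' : Set Ga) ∧ H' ≤ H ∧ H'.relIndex H ≤ p ∧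
      ∃ t : ℕ, t.Coprime p ∧ ∃ β, Bd H' M t c β

/-- the bound `B` for lattices of rank `n` -/
def PIn (n : ℕ) (B : ℝ) : Prop :=
  ∀ (X : Finset Om) (H N : Subgroup Ga) (M : AddSubgroup (Om →₀ ℤ))
    (c : Ga → (Om →₀ ℤ) → Un Om) (r : ℕ), X.card = n → IsOpen (N : Set Ga) → N ≤ H →
    (∃ i : Om, i ^ 2 = -1 ∧ ∀ σ ∈ H, σ i = i) → (∀ σ ∈ H, ∀ x ∈ X, σ x ∈ X) →
    (∀ ν ∈ N, ∀ x ∈ X, ν x = x) → 0 < r → (∀ y ∈ M, y.support ⊆ X) →
    (∀ x ∈ X, Finsupp.single x (r : ℤ) ∈ M) → Stab H M → Coc H M c →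
    (∀ ν ∈ N, ∀ y ∈ M, c ν y = 0) →
    ∃ H' : Subgroup Ga, IsOpen (H' : Set Ga) ∧ H' ≤ H ∧ (H'.relIndex H : ℝ) ≤ B ∧
      ∃ β, Bd H' M 1 c β

/-- the bound `B` for a commutative kernel in dimension `n` -/
def Cn (n : ℕ) (B : ℝ) : Prop :=
  ∀ (E W : Type) [Group E] [AddCommGroup W] [Module Om W] [FiniteDimensional Om W]
    [DistribMulAction E W] (π : E →* Ga) (E0 : Subgroup E) (r : ℕ), Module.finrank Om W = n →
    (∀ (e : E) (a : Om) (w : W), e • a • w = π e a • e • w) →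
    IsOpen ((E0.map π : Subgroup Ga) : Set Ga) → (∀ w : W, Opn π E0 (MulAction.stabilizer E w)) →
    (∃ i : Om, i ^ 2 = -1 ∧ ∀ e, π e i = i) → Finite π.ker → 0 < r →
    (∀ g, π g = 1 → ∀ w : W, g ^ r • w = w) →
    (∀ g h, π g = 1 → π h = 1 → ∀ w : W, g • h • w = h • g • w) →
    ∃ E' : Subgroup E, Opn π E0 E' ∧ (∀ g ∈ E', π g = 1 → ∀ w : W, g • w = w) ∧
      ((E'.map π).relIndex π.range : ℝ) ≤ B

/-- the bound `B` for a finite kernel in dimension `n` -/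
def Bn (n : ℕ) (B : ℝ) : Prop :=
  ∀ (E W : Type) [Group E] [AddCommGroup W] [Module Om W] [FiniteDimensional Om W]
    [DistribMulAction E W] (π : E →* Ga) (E0 : Subgroup E), Module.finrank Om W = n →
    (∀ (e : E) (a : Om) (w : W), e • a • w = π e a • e • w) →
    IsOpen ((E0.map π : Subgroup Ga) : Set Ga) → (∀ w : W, Opn π E0 (MulAction.stabilizer E w)) →
    (∃ i : Om, i ^ 2 = -1 ∧ ∀ e, π e i = i) → Finite π.ker →
    (∀ g, π g = 1 → (∀ w : W, g • w = w) → g = 1) →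
    ∃ E' : Subgroup E, Opn π E0 E' ∧ (∀ g ∈ E', π g = 1 → g = 1) ∧
      ((E'.map π).relIndex π.range : ℝ) ≤ B

/-- the bound `B` for morphisms of `ℙᴺ` -/
def TOPn (N : ℕ) (B : ℝ) : Prop :=
  ∀ d : ℕ, 2 ≤ d → ∀ f : Fin (N + 1) → MvPolynomial (Fin (N + 1)) Om,
    (∀ i, (f i).IsHomogeneous d) →
    (∀ x : Fin (N + 1) → Om, (∀ i, MvPolynomial.eval x (f i) = 0) → x = 0) →
    ∀ K : IntermediateField ℚ Om,
      (∀ x, x ∈ K ↔ ∀ σ : Ga, (∃ (φ : GL (Fin (N + 1)) Om) (c : Om), c ≠ 0 ∧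
        ∀ i, MvPolynomial.map (σ : Om →+* Om) (f i) = MvPolynomial.C c * H58.conj φ f i) →
          σ x = x) →
      ∃ L : IntermediateField ℚ Om, FiniteDimensional ℚ L ∧ K ≤ L ∧
        (∃ (φ : GL (Fin (N + 1)) Om) (c : Om), c ≠ 0 ∧
          ∀ i m, MvPolynomial.coeff m (MvPolynomial.C c * H58.conj φ f i) ∈ L) ∧
        (IntermediateField.relfinrank K L : ℝ) ≤ B

/-- the sharp bound for lattices -/
def RowPIs : Prop := ∀ ε : ℝ, 0 < ε → ∀ᶠ n : ℕ in atTop, PIn n (Real.exp ((1 + ε) * sz n))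

/-- from lattices to commutative kernels -/
def RowCs : Prop := ∀ n B, PIn n B → Cn n B

/-- from commutative kernels to finite kernels -/
def RowBs : Prop :=
  ∀ n B, 4 ≤ n → Cn n B → Bn n (B * ((∏ p ∈ (Finset.range (n + 1)).filter
    (fun p => p.Prime ∧ p ^ 2 ≤ n), p ^ (Nat.log p n * JJ (Nat.log p (n ^ 2))) : ℕ) : ℝ))

/-- from finite kernels to morphisms -/
def RowTs : Prop := ∀ N B, Bn (N + 1) B → TOPn N (2 * B)

/-- the sharp upper bound -/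
def RowUP : Prop := ∀ ε : ℝ, 0 < ε → ∀ᶠ N : ℕ in atTop, TOPn N (Real.exp ((1 + ε) * sz N))

/-- the theorem -/
def RowFINAL : Prop :=
  ∃ D : ℕ → ℕ, (∀ N, 1 ≤ N → SS N = D N) ∧
    Tendsto (fun N : ℕ => Real.log (D N) / Real.sqrt (N * Real.log N)) atTop (𝓝 1)

end Pool.Agent.MP_db5b97_nt.H31
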