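import Pool.Agent.MP_db5b97_nt.H31.Glue1
import Pool.Agent.MP_db5b97_nt.H31.SpecA

/-! The index is at most `p` up to a factor prime to `p`. -/

namespace Pool.Agent.MP_db5b97_nt.H31

open H85 NumberField Polynomial MulAction

variable {H N : Subgroup Ga} {V : Type} [AddCommGroup V] [DistribMulAction Ga V]
  {M : AddSubgroup V} {c : Ga → V → Un Om} {q : ℕ} [NeZero q] {ζ : Om}
  (hζ : IsPrimitiveRoot ζ q) {a : (ZMod q)ˣ} {p R r h l : ℕ}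

theorem pl_of_dvd {F : Type} [Field F] [NumberField F] {m n : ℕ} (hd : m ∣ n) {w : Sp F}
    (hw : (m : 𝓞 F) ∈ w.asIdeal) : (n : 𝓞 F) ∈ w.asIdeal := by
  obtain ⟨k, rfl⟩ := hd
  rw [Nat.cast_mul]
  exact Ideal.mul_mem_right _ _ hw

theorem not_both {F : Type} [Field F] [NumberField F] {m n : ℕ} (hd : m.Coprime n) {w : Sp F}
    (hw : (n : 𝓞 F) ∈ w.asIdeal) : (m : 𝓞 F) ∉ w.asIdeal := by
  have := val_coprime hw hd
  exact (val_eq_one_iff w m).1 (by simpa using this)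

theorem mem_und_iff {k F : Type} [Field k] [NumberField k] [Field F] [NumberField F] [Algebra k F]
    (n : ℕ) (w : Sp F) : (n : 𝓞 k) ∈ (und k w).asIdeal ↔ (n : 𝓞 F) ∈ w.asIdeal := by
  simp [und, Ideal.mem_comap]

theorem first_half (hS : RowMS) (hF : RowFR) (h1 : RowPART1) (hp : p.Prime) (hq : q.Prime) [Ope N]
    [Nrm H N] [Module.Free ℤ M] [Module.Finite ℤ M] (hsp : Spl (Fx N) q) (ha : orderOf a = p ^ R)
    (ha' : (Subgroup.zpowers a).index.Coprime p) {i : Om} (hi : i ^ 2 = -1)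
    (hiH : ∀ s ∈ H, s i = i) (hNH : N ≤ H) (hM : Stab H M) (hNM : ∀ ν ∈ N, ∀ y ∈ M, ν • y = y)
    (hc : Coc H M c) (hl : 2 ≤ l) (hql : q.Coprime l)
    (hb : ∀ b : ℕ, b.Prime → b ∣ l → p ^ (5 * r + Module.finrank ℚ (Fx N)) ∣ orderOf (b : ZMod q))
    (hR : 5 * r ≤ R) (θ : 𝓞 (Fx N)) (hθ : ∀ s : Ga, s (θ : Fx N) = (θ : Fx N) → s ∈ N)
    (hθ' : ∀ s ∈ H, ∀ x : Un (Fx (N ⊓ CC hζ a)), (x.val : Om) = s (θ : Fx N) - (θ : Fx N) →
      dv _ l x = 0) (hcard : Nat.card (Qt (H ⊓ ZZ hζ) (N ⊓ ZZ hζ)) = h * p ^ r) (hh : h.Coprime p)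
    [Fintype (Qt (H ⊓ ZZ hζ) (N ⊓ ZZ hζ))] [DistribMulAction (Qt (H ⊓ ZZ hζ) (N ⊓ ZZ hζ)) M]
    (hact : ∀ (s : ↥(H ⊓ ZZ hζ)) (m : M),
      (((s : Qt (H ⊓ ZZ hζ) (N ⊓ ZZ hζ)) • m : M) : V) = (s : Ga) • (m : V))
    (ch : Qt (H ⊓ ZZ hζ) (N ⊓ ZZ hζ) → Hm M (Un (Fx (N ⊓ CC hζ a))))
    (hch : ∀ (s : ↥(H ⊓ ZZ hζ)) (m : M), Un.inc _ Om (ch s m) = c s ((s : Ga)⁻¹ • (m : V)))
    (hdv : ∀ g m, dv _ l (ch g m) = 0) {σ : ↥(N ⊓ CC hζ a)} (hσ : kap hζ σ = a)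
    {ψ : Pr (Fx (N ⊓ CC hζ a)) q → ℕ} (hψ : IsPsi p R (a : ZMod q).val ψ) :
    ∃ S, Dat p R r (Fx (N ⊓ ZZ hζ)) (σ : Qt (N ⊓ CC hζ a) (N ⊓ ZZ hζ)) ψ ch S := by
  have fr := mk_fr (H := H) hζ hS hp hq hsp.1 ha hi (fun s hs => hiH s (hNH hs)) hσ
  have : Nrm (H ⊓ ZZ hζ) N := Nrm.mono inf_le_left
  refine h1 p q R _ l (R - 5 * r) r h _ _ _ _ M _ _ ψ ch fr ⟨hl, hql, ?_, ?_, fun W => ?_⟩
    (fun g W hW => ?_) hψ hcard hh (by omega) (fun g g' => ?_) hdv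
  · exact ⟨⟨i, mem_fx.2 fun s hs => hiH s (hNH hs.1)⟩, Subtype.ext hi,
      fun g => Quotient.inductionOn' g fun s => Subtype.ext (hiH s s.2.1)⟩
  · refine ⟨algebraMap _ _ θ, fun g hg w => ?_⟩
    induction g using QuotientGroup.induction_on with
    | H s =>
      have hne : (s : Qt (H ⊓ ZZ hζ) (N ⊓ ZZ hζ)) • algebraMap _ (𝓞 (Fx (N ⊓ CC hζ a))) θ -
          algebraMap _ _ θ ≠ 0 := fun e => hg ((QuotientGroup.eq_one_iff s).2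
        ⟨hθ s (by exact congrArg (algebraMap _ Om) (sub_eq_zero.1 e)), s.2.2⟩)
      have := DFunLike.congr_fun (hθ' s s.2.1 (mkI _ hne) rfl) w
      exact (val_eq_one_iff _ _).1 ((ord_eq_zero_iff _ _).1 this)
  · obtain ⟨b, b1, b2, b3⟩ := (hS.prm _ W.1).2.2 l (by omega) W.2
    have := (hF _ _ _ _ _ _ _ _ _ fr.toCy).2.2 ψ hψ
    exact Subtype.ext (congrArg Subtype.val (this.2.2.1 ⟨W.1, not_both hql W.2⟩ (5 * r)
      (hS.nrm (Fx N) _ p q b _ _ hp hq b1 ((mem_und_iff b W.1).2 b3)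
        (ha'.coprime_dvd_left (f_cop hζ hS a _)) (hb b b1 b2)
        (hql.coprime_dvd_right b2).symm)) :)
  · have e := und_smul_sp (F := Fx N) (g := g) (g' := g)
      (fun x => Quotient.inductionOn' g fun _ => rfl) W.1
    have hW' : g • W.1 = W.1 := congrArg Subtype.val hW
    rw [hW'] at e
    have := hS.free _ _ q hq hsp g (W.und (Fx N)) (Subtype.ext e.symm)
    exact Qt.eq_one (S := H ⊓ ZZ hζ) (N := N ⊓ ZZ hζ) (T := N) (fun s hs => ⟨hs.2, hs.1.2⟩) g this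
  · induction g using QuotientGroup.induction_on with
    | H s =>
      induction g' using QuotientGroup.induction_on with
      | H t =>
        refine Hm.ext fun m => inc_inj _ Om ?_
        have hm : (s : Ga)⁻¹ • (m : V) ∈ M := hM _ (inv_mem s.2.1) _ m.2
        have := hc.2 s s.2.1 t t.2.1 _ (hM _ (inv_mem t.2.1) _ hm)
        rw [smul_inv_smul] at this
        rw [← QuotientGroup.mk_mul, hch, Hm.add_apply, map_add, hch, Hm.smul_apply, inc_smul, hch,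
          ← QuotientGroup.mk_inv, hact, Subgroup.coe_mul, mul_inv_rev, mul_smul]
        exact this

theorem irr_q (hS : RowMS) (hR : RowRES) (h1 : RowNT1) (hp : p.Prime) (hq : q.Prime) [Ope N]
    [Ope H] (hsp : Spl (Fx N) q) (hNH : N ≤ H) {g : (𝓞 (Fx H))[X]} (hg : g.Monic)
    (hd : g.natDegree = p) (hi : ∀ v : Pl (Fx H) q, Irreducible (g.map (Ideal.Quotient.mk v.1.asIdeal)))
    (T : Subgroup Ga) [Ope T] [Fact (T ≤ H)] (hT : N ⊓ ZZ hζ ≤ T) (w : Pl (Fx T) q) :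
    Irreducible ((g.map (algebraMap _ (𝓞 (Fx T)))).map (Ideal.Quotient.mk w.1.asIdeal)) := by
  have : Fact (N ⊓ ZZ hζ ≤ T) := ⟨hT⟩
  have : Fact (N ⊓ ZZ hζ ≤ H) := ⟨inf_le_left.trans hNH⟩
  obtain ⟨W, rfl⟩ := (h1.und_surj (Fx T) (Fx (N ⊓ ZZ hζ)) q).1 w
  refine hR.up _ _ _ g hg (hi ((W.und (Fx T)).und _)) ?_
  have e1 := ((ram_step hζ hS hq hsp.1).2 W).1
  have : W.1.asIdeal.LiesOver (W.und (Fx N)).1.asIdeal := ⟨rfl⟩
  have e2 := Ideal.absNorm_pow_inertiaDeg (W.und (Fx N)).1.asIdeal W.1.asIdeal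
  rw [e1, pow_one, hsp.2] at e2
  have e3 := (hS.tower (Fx H) (Fx T) _ W.1).2
  rw [hS.one (Fx H) _ q W.1 hq e2.symm] at e3
  have e4 : (W.und (Fx T)).1.asIdeal.inertiaDeg (𝓞 (Fx H)) = 1 :=
    Nat.eq_one_of_mul_eq_one_right e3.symm
  rw [e4]
  exact Nat.coprime_one_left _

theorem second_half (hS : RowMS) (hR : RowRES) (h1 : RowNT1) (hI : RowIN) (hXL : RowXL)
    (h2 : RowPART2) (hp : p.Prime) (hq : q.Prime) {X : Finset Om} {M : AddSubgroup (Om →₀ ℤ)}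
    {c : Ga → (Om →₀ ℤ) → Un Om} [Module.Free ℤ M] [Ope N] [Nrm H N] (hsp : Spl (Fx N) q) (ha : orderOf a = p ^ R)
    (ha' : (Subgroup.zpowers a).index.Coprime p) {i : Om} (hi : i ^ 2 = -1)
    (hiH : ∀ s ∈ H, s i = i) (hNH : N ≤ H) (hcX : X.card < p * (p - 1))
    (hX : ∀ σ ∈ H, ∀ x ∈ X, σ x ∈ X) (hNX : ∀ σ ∈ H, σ ∈ N ↔ ∀ x ∈ X, σ x = x)
    (hs : ∀ y ∈ M, y.support ⊆ X) (hM : Stab H M) (hc : Coc H M c)
    (hcN : ∀ ν ∈ N, ∀ y ∈ M, c ν y = 0) (hr : 1 ≤ r) (hrR : r + 1 ≤ R)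
    (hcard : Nat.card (Qt (H ⊓ ZZ hζ) (N ⊓ ZZ hζ)) = h * p ^ r) (hh : h.Coprime p)
    [Fintype (Qt (H ⊓ ZZ hζ) (N ⊓ ZZ hζ))] [DistribMulAction (Qt (H ⊓ ZZ hζ) (N ⊓ ZZ hζ)) M]
    (hact : ∀ (s : ↥(H ⊓ ZZ hζ)) (m : M),
      (((s : Qt (H ⊓ ZZ hζ) (N ⊓ ZZ hζ)) • m : M) : Om →₀ ℤ) = (s : Ga) • (m : Om →₀ ℤ))
    (ch : Qt (H ⊓ ZZ hζ) (N ⊓ ZZ hζ) → Hm M (Un (Fx (N ⊓ CC hζ a))))
    (hch : ∀ (s : ↥(H ⊓ ZZ hζ)) (m : M), Un.inc _ Om (ch s m) = c s ((s : Ga)⁻¹ • (m : Om →₀ ℤ)))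
    {σ : ↥(N ⊓ CC hζ a)} (hσ : kap hζ σ = a) {ψ : Pr (Fx (N ⊓ CC hζ a)) q → ℕ}
    (hψ : IsPsi p R (a : ZMod q).val ψ) {S : Finset (Pr (Fx (N ⊓ CC hζ a)) q)}
    (hD : Dat p R r (Fx (N ⊓ ZZ hζ)) (σ : Qt (N ⊓ CC hζ a) (N ⊓ ZZ hζ)) ψ ch S) :
    ∃ H' : Subgroup Ga, IsOpen (H' : Set Ga) ∧ H' ≤ H ∧ H'.relIndex H ≤ p ∧
      ∃ t : ℕ, t.Coprime p ∧ ∃ β, Bd H' M t c β := by
  classical
  have : Ope H := Ope.mono hNH
  have : Fact (N ≤ H) := ⟨hNH⟩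
  have hNM : ∀ ν ∈ N, ∀ y ∈ M, ν • y = y := fix_supp hs fun ν hν => (hNX ν (hNH hν)).1 hν
  set L := q * ∏ w ∈ S, Ideal.absNorm w.1.asIdeal with hL
  have hL2 : 2 ≤ L := hq.two_le.trans (Nat.le_mul_of_pos_right _
    (Finset.prod_pos fun w _ => Nat.pos_of_ne_zero (hS.prm _ w.1).2.1))
  obtain ⟨g, hg, hd, hi1⟩ := hR.ex (Fx H) L p (by omega) hp.pos
  obtain ⟨α, h0, hα⟩ := exists_root hg (hd ▸ hp.pos)
  have r1 := (relIndex_stab hg (hR.fld _ L g hL2 hg hi1) h0).trans hd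
  have hiq := irr_q hζ hS hR h1 hp hq hsp hNH hg hd
    fun v => hi1 ⟨v.1, pl_of_dvd (dvd_mul_right _ _) v.2⟩
  have rT : ∀ (T : Subgroup Ga) [Ope T] [Fact (T ≤ H)], N ⊓ ZZ hζ ≤ T →
      (T ⊓ stabilizer Ga α).relIndex T = p := fun T _ _ hT =>
    (relIndex_stab (hg.map _) (hR.fld _ q _ hq.two_le (hg.map _) (hiq T hT))
      (by rwa [aeval_map_algebraMap])).trans ((hg.natDegree_map _).trans hd)
  have hU : Unq (Fx (N ⊓ stabilizer Ga α)) q := hS.unq (Fx N) _ q (genI N hα) _ hq (hg.map _)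
    (aeval_genI hα (by rwa [aeval_map_algebraMap]))
    (by rw [finrank_fx_rel, rT N inf_le_left, hg.natDegree_map, hd]) (hiq N inf_le_left) hsp.1
  have := Nrm.inf (H := H) (N := N) α
  have hk := (ram_step hζ hS hq hU).1
  obtain ⟨σ', hσ1, hσ2⟩ := hk a
  let σ1 : ↥(N ⊓ stabilizer Ga α ⊓ CC hζ a) := ⟨σ', hσ1, by
    show kap hζ σ' ∈ Subgroup.zpowers a
    exact hσ2 ▸ Subgroup.mem_zpowers _⟩
  have fr := mk_fr (H := H ⊓ stabilizer Ga α) hζ hS hp hq hU ha hi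
    (fun s hs => hiH s (hNH hs.1)) (σ := σ1) hσ2
  have : Fact (N ⊓ ZZ hζ ≤ H) := ⟨inf_le_left.trans hNH⟩
  have : Fact (N ⊓ CC hζ a ≤ H) := ⟨inf_le_left.trans hNH⟩
  obtain ⟨φ, hφ, hφ'⟩ := qt_bij (S1 := H ⊓ stabilizer Ga α ⊓ ZZ hζ)
    (N1 := N ⊓ stabilizer Ga α ⊓ ZZ hζ) (S2 := H ⊓ ZZ hζ) (N2 := N ⊓ ZZ hζ)
    (inf_le_inf_right _ inf_le_left)
    (fun s hs => ⟨fun h => ⟨h.1.1, h.2⟩, fun h => ⟨⟨h.1, hs.1.2⟩, h.2⟩⟩) (inf_le_inf_right _ hNH)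
    fun s hs => by
      obtain ⟨ν, hν, e⟩ := exists_mul_stab (α := α) (S := H) (T := N ⊓ ZZ hζ)
        (inf_le_left.trans hNH) (by rw [← Subgroup.inf_relIndex_left, r1]; exact hp.ne_zero)
        (by rw [← Subgroup.inf_relIndex_left, r1, ← Subgroup.inf_relIndex_left, rT _ le_rfl]) hs.1
      exact ⟨ν, hν, ⟨H.mul_mem hs.1 (hNH hν.1), e⟩, (ZZ hζ).mul_mem hs.2 hν.2⟩
  have hH' : H ⊓ stabilizer Ga α ⊓ ZZ hζ ≤ H := inf_le_left.trans inf_le_left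
  have hN' : N ⊓ stabilizer Ga α ⊓ ZZ hζ ≤ N := inf_le_left.trans inf_le_left
  have : Nrm (H ⊓ stabilizer Ga α) N := Nrm.mono inf_le_left
  have : Nrm (H ⊓ stabilizer Ga α ⊓ ZZ hζ) (N ⊓ ZZ hζ) := Nrm.inf2 _ _
  have : Nrm (H ⊓ stabilizer Ga α ⊓ ZZ hζ) (N ⊓ CC hζ a) := Nrm.inf2 _ _
  have : Fact (N ⊓ stabilizer Ga α ⊓ ZZ hζ ≤ N ⊓ ZZ hζ) := ⟨inf_le_inf_right _ inf_le_left⟩
  have : Fact (N ⊓ stabilizer Ga α ⊓ CC hζ a ≤ N ⊓ CC hζ a) := ⟨inf_le_inf_right _ inf_le_left⟩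
  have : Lq (N ⊓ stabilizer Ga α ⊓ ZZ hζ) (N ⊓ CC hζ a) := ⟨inf_le_inf inf_le_left (ZZ_le hζ a)⟩
  let _ := Qt.mact (N := N ⊓ stabilizer Ga α ⊓ ZZ hζ) (hM.mono hH') fun ν hν => hNM ν (hN' hν)
  have := Fintype.ofFinite (Qt (H ⊓ stabilizer Ga α ⊓ ZZ hζ) (N ⊓ stabilizer Ga α ⊓ ZZ hζ))
  have hD' := hD.transport φ hφ
    (fun g x => Quotient.inductionOn' g fun s => (congrArg (· • x) (hφ' s)).symm)
    (fun g x => Quotient.inductionOn' g fun s => (congrArg (· • x) (hφ' s)).symm)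
    (fun g x => Quotient.inductionOn' g fun s => Subtype.ext
      ((congrArg (fun z => ((z • x : M) : Om →₀ ℤ)) (hφ' s)).trans (hact _ x)).symm)
  have hXH : XH p (Qt (H ⊓ stabilizer Ga α ⊓ ZZ hζ) (N ⊓ stabilizer Ga α ⊓ ZZ hζ)) (Du M) := by
    have hX' := fun s (hs : s ∈ H ⊓ stabilizer Ga α ⊓ ZZ hζ) => hX s (hH' hs)
    have hN'' := fun s (hs : s ∈ N ⊓ stabilizer Ga α ⊓ ZZ hζ) => (hNX s (hNH (hN' hs))).1 (hN' hs)
    let _ := Qt.xact hX' hN''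
    let j : M →+ (X →₀ ℤ) :=
      (Finsupp.comapDomain.addMonoidHom (f := ((↑) : X → Om)) Subtype.val_injective).comp M.subtype
    have hj : ∀ m, jX X (j m) = m := fun m => Finsupp.mapDomain_comapDomain _
      Subtype.val_injective m.1 fun x hx => ⟨⟨x, hs _ m.2 hx⟩, rfl⟩
    refine hXL p _ X M j hp (by rwa [Fintype.card_coe]) (fun g hg => ?_)
      (fun x y e => Subtype.ext (by rw [← hj, e, hj])) fun g m => ?_
    · induction g using QuotientGroup.induction_on with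
      | H s => exact (QuotientGroup.eq_one_iff s).2 ⟨⟨(hNX s (hH' s.2)).2 fun x hx =>
          congrArg Subtype.val (hg ⟨x, hx⟩), s.2.1.2⟩, s.2.2⟩
    · induction g using QuotientGroup.induction_on with
      | H s =>
        refine Finsupp.mapDomain_injective (f := ((↑) : X → Om)) Subtype.val_injective ?_
        exact (hj _).trans ((congrArg ((s : Ga) • ·) (hj m)).symm.trans (jX_smul hX' hN'' s _).symm)
  have htr : ∀ y y' : Pr (Fx (N ⊓ stabilizer Ga α ⊓ CC hζ a)) q, y.und _ ∈ S →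
      y.und (Fx (N ⊓ CC hζ a)) = y'.und _ →
      ∃ g : Qt (H ⊓ stabilizer Ga α ⊓ ZZ hζ) (N ⊓ stabilizer Ga α ⊓ ZZ hζ), g • y = y' := by
    intro y y' hy e
    have : Fact (H ⊓ CC hζ a ≤ H) := fact_inf
    have : Fact (N ⊓ CC hζ a ≤ H ⊓ CC hζ a) := ⟨inf_le_inf_right _ hNH⟩
    have : Fact (N ⊓ stabilizer Ga α ⊓ CC hζ a ≤ H ⊓ CC hζ a) :=
      ⟨inf_le_inf_right _ (inf_le_left.trans hNH)⟩
    have : Fact (N ⊓ stabilizer Ga α ⊓ CC hζ a ≤ H ⊓ CC hζ a ⊓ stabilizer Ga α) :=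
      ⟨fun s hs => ⟨⟨hNH hs.1.1, hs.2⟩, hs.1.2⟩⟩
    have : Nrm (H ⊓ CC hζ a ⊓ stabilizer Ga α) (N ⊓ stabilizer Ga α ⊓ CC hζ a) :=
      haveI : Nrm (H ⊓ stabilizer Ga α) (N ⊓ stabilizer Ga α ⊓ CC hζ a) := Nrm.inf3 _
      Nrm.mono (H := H ⊓ stabilizer Ga α) fun s hs => ⟨hs.1.1, hs.2⟩
    have hin := (hI (Fx (H ⊓ CC hζ a)) _ L (genI (H ⊓ CC hζ a) hα) _ hL2 (hg.map _)
      (aeval_genI hα (by rwa [aeval_map_algebraMap]))
      (by rw [finrank_fx_rel, rT _ (inf_le_inf hNH (ZZ_le hζ a)), hg.natDegree_map, hd])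
      fun v => hR.up _ _ v.1 g hg (hi1 (v.und _))
        (hd ▸ ha'.coprime_dvd_left (f_cop hζ hS a _))).1
    have hyL : ∀ z : Pr (Fx (N ⊓ stabilizer Ga α ⊓ CC hζ a)) q, z.und _ ∈ S →
        (L : 𝓞 _) ∈ (und (Fx (H ⊓ CC hζ a ⊓ stabilizer Ga α)) z.1).asIdeal := fun z hz =>
      (mem_und_iff L z.1).2 ((mem_und_iff L z.1).1 (pl_of_dvd
        ((Finset.dvd_prod_of_mem _ hz).mul_left q) (hS.prm _ (z.und _).1).1))
    have e1 := hin (a₁ := ⟨_, hyL y hy⟩) (a₂ := ⟨_, hyL y' (e ▸ hy)⟩) (Subtype.ext (by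
      have e' : und (Fx (N ⊓ CC hζ a)) y.1 = und (Fx (N ⊓ CC hζ a)) y'.1 := congrArg Subtype.val e
      exact (hS.tower _ _ _ y.1).1.trans ((hS.tower _ (Fx (N ⊓ CC hζ a)) _ y.1).1.symm.trans
        ((congrArg _ e').trans ((hS.tower _ (Fx (N ⊓ CC hζ a)) _ y'.1).1.trans
          (hS.tower _ _ _ y'.1).1.symm)))))
    obtain ⟨γ, hγ⟩ := hS.trans (Fx (H ⊓ CC hζ a ⊓ stabilizer Ga α)) _ (Qt (H ⊓ CC hζ a ⊓ stabilizer Ga α)
      (N ⊓ stabilizer Ga α ⊓ CC hζ a)) y.1 y'.1 (congrArg Subtype.val e1)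
    induction γ using QuotientGroup.induction_on with
    | H u =>
      obtain ⟨s, hs, ν, hν, e2⟩ := split_C hζ (a := a) (H := H ⊓ stabilizer Ga α)
        (inf_le_inf_right _ hNH) hk (σ := u) ⟨⟨u.2.1.1, u.2.2⟩, u.2.1.2⟩
      refine ⟨((⟨s, hs⟩ : ↥(H ⊓ stabilizer Ga α ⊓ ZZ hζ)) :), Subtype.ext
        ((smul_sp_congr (fun x => Subtype.ext ?_) y.1).trans hγ)⟩
      show s x = (u : Ga) x
      rw [e2, AlgEquiv.mul_apply, Fx.fix x hν]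
  obtain ⟨h', t', k1, k2, k3⟩ := h2 p q R _ r h (Fx (N ⊓ CC hζ a))
    (Qt (H ⊓ stabilizer Ga α ⊓ ZZ hζ) (N ⊓ stabilizer Ga α ⊓ ZZ hζ)) (Fx (N ⊓ ZZ hζ))
    (Qt (N ⊓ CC hζ a) (N ⊓ ZZ hζ)) (Fx (N ⊓ stabilizer Ga α ⊓ CC hζ a))
    (Fx (N ⊓ stabilizer Ga α ⊓ ZZ hζ))
    (Qt (N ⊓ stabilizer Ga α ⊓ CC hζ a) (N ⊓ stabilizer Ga α ⊓ ZZ hζ)) M σ σ1 _ ψ _ S fr hψ
    (fun _ => rfl)
    (fun g x => Quotient.inductionOn' g fun _ => rfl)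
    (fun g x => Quotient.inductionOn' g fun _ => rfl)
    (fun x => Subtype.ext (by
      have hm : σ'⁻¹ * σ ∈ N ⊓ ZZ hζ := ⟨N.mul_mem (N.inv_mem hσ1.1) σ.2.1, by
        show kap hζ _ = 1
        rw [map_mul, map_inv, hσ, hσ2, inv_mul_cancel]⟩
      have := congrArg σ' (x.fix hm)
      simpa using this))
    (by
      rw [finrank_fx_rel, inf_right_comm]
      exact rT _ (inf_le_inf_left _ (ZZ_le hζ a)))
    ((Nat.card_eq_of_bijective φ hφ).trans hcard) hh hr hrR hXH htr hD'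
  · let β : (Om →₀ ℤ) → Un Om := extH ((Un.inc _ Om).comp t'.hom)
    have hβ : ∀ y (hy : y ∈ M), β y = Un.inc _ Om (t' ⟨y, hy⟩) := fun y hy => extH_apply _ hy
    refine ⟨H ⊓ stabilizer Ga α, Ope.out, inf_le_left, r1.le, finish hζ (β := β) ha' k1
      (inf_le_inf_right _ hNH) hk (hM.mono inf_le_left) (fun ν hν => hNM ν hν.1)
      (hc.mono inf_le_left le_rfl) (fun ν hν => hcN ν hν.1)
      ⟨extH_addOn _, fun s hs y hy => ?_⟩ fun ν hν y hy => ?_⟩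
    · have hy' := hM s (hH' hs) y hy
      have := congrArg (fun f : Hm M _ => Un.inc _ Om (f ⟨_, hy'⟩)) (k3 ((⟨s, hs⟩ : ↥(H ⊓ stabilizer Ga α ⊓ ZZ hζ)) :))
      simp only [Hm.nsmul_apply, Hm.post_apply, Hm.sub_apply, Hm.smul_apply, map_nsmul, map_sub,
        AddMonoidHom.comp_apply, inc_inc, hφ', hch, inc_smul, inv_smul_smul] at this
      rw [hβ y hy, hβ _ hy', this]
      exact congrArg (fun z => s • Un.inc _ Om (t' z) - _) (Subtype.ext (inv_smul_smul s y))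
    · obtain ⟨n, hn⟩ := mem_zp hζ (σ := σ1) hσ2 ((⟨ν, hν⟩ : ↥(N ⊓ stabilizer Ga α ⊓ CC hζ a)) :)
      have := (stabilizer _ (t' ⟨y, hy⟩)).zpow_mem (k2 ⟨y, hy⟩) n
      rw [hβ y hy]
      beta_reduce at hn
      rw [hn] at this
      exact congrArg (Un.inc _ Om) this

theorem rowIDXs (hS : RowMS) (hR : RowRES) (h1 : RowNT1) (hI : RowIN) (hF : RowFR) (hQ : RowQS)
    (hXL : RowXL) (hP1 : RowPART1) (hP2 : RowPART2) : RowIDXs := by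
  intro p X H N M c r0 hp hp2 hcX hN hNH hnorm ⟨i, hi, hiH⟩ hX hNX _ hs _ hM hc hcN
  classical
  have : Ope N := ⟨hN⟩
  have : Ope H := Ope.mono hNH
  have : Nrm H N := ⟨hnorm⟩
  have hNM : ∀ ν ∈ N, ∀ y ∈ M, ν • y = y := fix_supp hs fun ν hν => (hNX ν (hNH hν)).1 hν
  obtain ⟨r, h, hh, hcard⟩ := Nat.exists_eq_pow_mul_and_not_dvd (relIndex_ne (S := N) (T := H)) p
    hp.ne_one
  have hh' : h.Coprime p := ((Nat.Prime.coprime_iff_not_dvd hp).2 hh).symm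
  rcases Nat.eq_zero_or_pos r with rfl | hr
  · refine ⟨H, Ope.out, le_rfl, H.relIndex_self.trans_le hp.one_le, _, ?_,
      cores_zero relIndex_ne hM hc hcN⟩
    rwa [hcard, pow_zero, one_mul]
  have hfin : Module.Finite ℤ M := Module.Finite.of_injective
    ((Finsupp.comapDomain.addMonoidHom (f := ((↑) : X → Om)) Subtype.val_injective).comp
      M.subtype).toIntLinearMap fun x y e => Subtype.ext <| by
    have := congrArg (jX X) e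
    exact (Finsupp.mapDomain_comapDomain _ Subtype.val_injective x.1
      fun a ha => ⟨⟨a, hs _ x.2 ha⟩, rfl⟩).symm.trans (this.trans (Finsupp.mapDomain_comapDomain _
        Subtype.val_injective y.1 fun a ha => ⟨⟨a, hs _ y.2 ha⟩, rfl⟩))
  obtain ⟨θ, hθ⟩ := exists_theta N
  obtain ⟨n, v, hv⟩ := Module.Finite.exists_fin (R := ℤ) (M := M)
  obtain ⟨l, hl, hlu⟩ := hR.lu ((⋃ i, (fun s => (c s (s⁻¹ • (v i : Om →₀ ℤ))).val) '' H) ∪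
    (fun s : Ga => s (θ : Fx N) - (θ : Fx N)) '' H \ {0})
    ((Set.finite_iUnion fun i => finite_image (N := N) _ fun s hs ν hν => by
      have hm := hM _ (inv_mem hs) _ (v i).2
      rw [mul_inv_rev, mul_smul, hNM _ (inv_mem hν) _ hm, hc.mul_right hNH hNM hcN hs hν hm]).union
      ((finite_image (N := N) _ fun s _ ν hν => by
        rw [AlgEquiv.mul_apply, Fx.fix _ hν]).subset Set.sdiff_subset)) (by simp)
  obtain ⟨q, hq, hql, hsp, hb⟩ := hQ p l (5 * r + Module.finrank ℚ (Fx N)) N hp hp2 (by omega)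
  have : Fact q.Prime := ⟨hq⟩
  obtain ⟨ζ, hζ⟩ := HasEnoughRootsOfUnity.exists_primitiveRoot Om q
  have hq1 : q - 1 ≠ 0 := by have := hq.two_le; omega
  obtain ⟨R, m, hm, hqm⟩ := Nat.exists_eq_pow_mul_and_not_dvd hq1 p hp.ne_one
  obtain ⟨u, hu⟩ := IsCyclic.exists_ofOrder_eq_natCard (α := (ZMod q)ˣ)
  have hcu : Nat.card (ZMod q)ˣ = p ^ R * m := by
    rw [Nat.card_eq_fintype_card, ZMod.card_units, hqm]
  have hm0 : 0 < m := Nat.pos_of_ne_zero (by rintro rfl; exact hm (dvd_zero p))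
  have ha : orderOf (u ^ m) = p ^ R := by
    rw [orderOf_pow_of_dvd hm0.ne' (by rw [hu, hcu]; exact dvd_mul_left _ _), hu, hcu,
      Nat.mul_div_cancel _ hm0]
  have ha' : (Subgroup.zpowers (u ^ m)).index.Coprime p := by
    have := (Subgroup.zpowers (u ^ m)).card_mul_index
    rw [Nat.card_zpowers, ha, hcu] at this
    rw [Nat.eq_of_mul_eq_mul_left (pow_pos hp.pos R) this]
    exact ((Nat.Prime.coprime_iff_not_dvd hp).2 hm).symm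
  have hR5 : 5 * r ≤ R := by
    obtain ⟨b, b1, b2⟩ := Nat.exists_prime_and_dvd (show l ≠ 1 by omega)
    have h3 := (hb b b1 b2).trans (ZMod.orderOf_dvd_card_sub_one (p := q) (a := b) (by
      rw [Ne, ZMod.natCast_eq_zero_iff]
      exact (Nat.Prime.coprime_iff_not_dvd hq).1 (hql.coprime_dvd_right b2)))
    rw [hqm] at h3
    have := (Nat.pow_dvd_pow_iff_le_right hp.one_lt).1
      ((Nat.Coprime.pow_left _ ((Nat.Prime.coprime_iff_not_dvd hp).2 hm)).dvd_of_dvd_mul_right h3)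
    omega
  have hk := (ram_step hζ hS hq hsp.1).1
  obtain ⟨σ', hσ1, hσ2⟩ := hk (u ^ m)
  let σ : ↥(N ⊓ CC hζ (u ^ m)) := ⟨σ', hσ1, by
    show kap hζ σ' ∈ Subgroup.zpowers (u ^ m)
    exact hσ2 ▸ Subgroup.mem_zpowers _⟩
  obtain ⟨φ, hφ, -⟩ := qt_bij (S1 := H ⊓ ZZ hζ) (N1 := N ⊓ ZZ hζ) (S2 := H) (N2 := N) inf_le_left
    (fun s hs => ⟨fun h => h.1, fun h => ⟨h, hs.2⟩⟩) hNH fun s hs => by
      obtain ⟨ν, hν, e⟩ := hk (kap hζ s)⁻¹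
      refine ⟨ν, hν, H.mul_mem hs (hNH hν), ?_⟩
      show kap hζ _ = 1
      rw [map_mul, e, mul_inv_cancel]
  have hcard' : Nat.card (Qt (H ⊓ ZZ hζ) (N ⊓ ZZ hζ)) = h * p ^ r :=
    (Nat.card_eq_of_bijective φ hφ).trans (hcard.trans (mul_comm _ _))
  let _ := Qt.mact (N := N ⊓ ZZ hζ) (hM.mono (inf_le_left (b := ZZ hζ))) fun ν hν => hNM ν hν.1
  have := Fintype.ofFinite (Qt (H ⊓ ZZ hζ) (N ⊓ ZZ hζ))
  obtain ⟨ch, hch⟩ := ex_chat (S := H ⊓ ZZ hζ) (N1 := N ⊓ ZZ hζ) (T := N ⊓ CC hζ (u ^ m))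
    inf_le_left inf_le_left inf_le_left hNH hM hNM hc hcN
  obtain ⟨ψ, hψ⟩ := (hF _ _ _ _ _ _ _ _ _ (mk_fr (H := H) hζ hS hp hq hsp.1 ha hi
    (fun s hs => hiH s (hNH hs)) (σ := σ) hσ2).toCy).1
  obtain ⟨S, hD⟩ := first_half hζ hS hF hP1 hp hq hsp ha ha' hi hiH hNH hM hNM hc hl hql hb hR5 θ hθ
    (fun s hs x hx => hlu _ x (Or.inr ⟨⟨s, hs, hx.symm⟩, fun h => x.val_ne (Subtype.ext h)⟩))
    hcard' hh' (fun _ _ => rfl) ch hch (fun g => by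
      induction g using QuotientGroup.induction_on with
      | H s =>
        exact LinearMap.congr_fun (LinearMap.ext_on_range hv
          (f := ((dv _ l).comp (ch s).hom).toIntLinearMap) (g := 0) fun i => hlu _ _ <| Or.inl <|
            Set.mem_iUnion.2 ⟨i, s, s.2.1, (congrArg Un.val (hch s (v i))).symm⟩)) (σ := σ) hσ2 hψ
  exact second_half hζ hS hR h1 hI hXL hP2 hp hq hsp ha ha' hi hiH hNH hcX hX hNX hs hM hc hcN hr
    (by omega) hcard' hh' (fun _ _ => rfl) ch hch (σ := σ) hσ2 hψ hD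

end Pool.Agent.MP_db5b97_nt.H31
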