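import Pool.Agent.MP_db5b97_nt.H85.All
import Pool.Agent.MP_db5b97_nt.H31.Glue2
import Pool.Agent.MP_db5b97_nt.H5.Bs
import Pool.Agent.MP_db5b97_nt.H5.G4
import Pool.Agent.MP_db5b97_nt.H5.Orb
import Pool.Agent.MP_db5b97_nt.H6.G5
import Pool.Agent.MP_db5b97_nt.H6.INP
import Pool.Agent.MP_db5b97_nt.H9.ACT
import Pool.Agent.MP_db5b97_nt.H9.PART2
import Pool.Agent.MP_db5b97_nt.H14.G7
import Pool.Agent.MP_db5b97_nt.H16.IL
import Pool.Agent.MP_db5b97_nt.H16.HA3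
import Pool.Agent.MP_db5b97_nt.H16.SUP
import Pool.Agent.MP_db5b97_nt.H17.MS
import Pool.Agent.MP_db5b97_nt.H18.GCT2
import Pool.Agent.MP_db5b97_nt.H19.GCT1
import Pool.Agent.MP_db5b97_nt.H19.NP
import Pool.Agent.MP_db5b97_nt.H19.PIs
import Pool.Agent.MP_db5b97_nt.H22.HA
import Pool.Agent.MP_db5b97_nt.H27.KILL
import Pool.Agent.MP_db5b97_nt.H30.REC
import Pool.Agent.MP_db5b97_nt.H40.Inert
import Pool.Agent.MP_db5b97_nt.H44.CON2
import Pool.Agent.MP_db5b97_nt.H51.STEP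
import Pool.Agent.MP_db5b97_nt.H52.SelSg
import Pool.Agent.MP_db5b97_nt.H53.CT
import Pool.Agent.MP_db5b97_nt.H53.XL
import Pool.Agent.MP_db5b97_nt.H54.Rich
import Pool.Agent.MP_db5b97_nt.H54.U1
import Pool.Agent.MP_db5b97_nt.H55.SV
import Pool.Agent.MP_db5b97_nt.H56.COREs
import Pool.Agent.MP_db5b97_nt.H59.HOL
import Pool.Agent.MP_db5b97_nt.H70.FR
import Pool.Agent.MP_db5b97_nt.H72.PART1
import Pool.Agent.MP_db5b97_nt.H73.KUM
import Pool.Agent.MP_db5b97_nt.H75.B2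
import Pool.Agent.MP_db5b97_nt.H75.Tow
import Pool.Agent.MP_db5b97_nt.H75.UpFinal
import Pool.Agent.MP_db5b97_nt.H76.Lay
import Pool.Agent.MP_db5b97_nt.H79.NA
import Pool.Agent.MP_db5b97_nt.H82.Landau
import Pool.Agent.MP_db5b97_nt.H84.Es
import Pool.Agent.MP_db5b97_nt.H86.BAB
import Pool.Agent.MP_db5b97_nt.H90.QS
import Pool.Agent.MP_db5b97_nt.H94.AdjPre
import Pool.Agent.MP_db5b97_nt.H95.NUM
import Pool.Agent.MP_db5b97_nt.H97.HAM

/-! Assembly of the sharp asymptotic formula. -/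

namespace Pool.Agent.MP_db5b97_nt.H31

theorem allBB : RowBB := rowBB H75.rowB2 H86.rowBAB

theorem allGOOD : RowGOOD :=
  H30.rowGOOD H9.rowACT H76.rowLAY
    (H30.rowREC allBB (H5.rowG4 (H16.rowIL allBB) (H19.rowNP H59.rowHOL)) (H6.rowG5 H75.rowB2)
      (H51.rowSTEP H59.rowWIE H76.rowLAY)) H14.rowG7

theorem allNUM : RowNUM :=
  H95.rowNUM (H82.rowLAND H82.rowPNT (H82.rowPL H82.rowPNT))
    (H54.rowRICH (H54.rowSV2 (H55.rowSV H52.rowSEL H52.rowSG)))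

theorem allHA2 : RowHA2 :=
  H22.rowHA2 H54.rowU1 H70.rowFR H40.rowINERT (H22.rowHA1 H54.rowU1)

theorem allPART1 : RowPART1 :=
  H72.rowPART1 H54.rowU1 H70.rowFR (H22.rowHA1 H54.rowU1)
    (H27.rowKILL (H75.rowTOW H70.rowFR H17.rowMS H6.rowINP)
      (H56.rowCOREs H19.rowGCT1 (H18.rowGCT2 H19.rowGCT1))) (H94.rowADJ H54.rowU1) H94.rowPRE

theorem allPART2 : RowPART2 :=
  H9.rowPART2 H54.rowU1 H70.rowFR H40.rowINERT (H44.rowCON H5.rowORB)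
    (H97.rowHAM allHA2 (H16.rowHA3 H54.rowU1 H70.rowFR H40.rowINERT allHA2)) H5.rowALG

theorem allIDXs : RowIDXs :=
  rowIDXs H17.rowMS (H85.rowRES H76.rowGEN) H10.rowNT1 H76.rowIN H70.rowFR
    (H90.rowQS H73.rowKUM H17.rowMS) H53.rowXL allPART1 allPART2

theorem allUP : RowUP :=
  H75.rowUP (H19.rowPIs H85.rowNT2 H85.rowD (H84.rowEs H25.rowHQ) H85.allIDX allIDXs allGOOD allNUM
      H95.rowSMALL) (H53.rowCs (H53.rowTOR H53.rowDS))
    (H5.rowBs (H35.rowC (H53.rowTOR H53.rowDS) H85.allPI) (H79.rowNA H16.rowSUP))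
    (H53.rowTs H53.rowDS H85.rowFIN) H95.rowSMALL

theorem allFINAL : RowFINAL :=
  H75.rowFINAL H85.allTOP allUP (H82.rowLOW H82.rowPNT (H82.rowPL H82.rowPNT)) H95.rowSMALL

end Pool.Agent.MP_db5b97_nt.H31
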