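import Pool.Agent.MP_db5b97_nt.H31.SpecT
import Pool.Agent.MP_db5b97_nt.H85.PI

/-! Auxiliary cyclotomic extensions inside the algebraic closure. -/

namespace Pool.Agent.MP_db5b97_nt.H31

open H85 NumberField Polynomial MulAction

section Congr

variable {F F' G G' : Type} [Field F] [NumberField F] [Field F'] [NumberField F'] [Group G]
  [Group G'] [MulSemiringAction G F] {g : G} {g' : G'}

theorem und_smul_sp [Algebra F F'] [MulSemiringAction G' F']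
    (h : ∀ x, algebraMap F F' (g • x) = g' • algebraMap F F' x) (w : Sp F') :
    und F (g' • w) = g • und F w := by
  refine IsDedekindDomain.HeightOneSpectrum.ext (Ideal.ext fun x => ?_)
  have e : g'⁻¹ • algebraMap (𝓞 F) (𝓞 F') x = algebraMap (𝓞 F) (𝓞 F') (g⁻¹ • x) := by
    rw [inv_smul_eq_iff]
    ext
    have := h (g⁻¹ • (x : F))
    rw [smul_inv_smul] at this
    exact this
  exact (mem_smul_iff g' w (algebraMap (𝓞 F) (𝓞 F') x)).trans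
    (e ▸ (mem_smul_iff g (und F w) x).symm)

omit [NumberField F] in
theorem smul_sp_congr [MulSemiringAction G' F] (h : ∀ x : F, g • x = g' • x) (w : Sp F) :
    g • w = g' • w := by
  refine IsDedekindDomain.HeightOneSpectrum.ext (Ideal.ext fun x => ?_)
  rw [mem_smul_iff, mem_smul_iff]
  have : g⁻¹ • x = g'⁻¹ • x := by
    rw [inv_smul_eq_iff]
    ext
    have := h (g'⁻¹ • (x : F))
    rw [smul_inv_smul] at this
    exact this.symm
  rw [this]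

end Congr

theorem tr_congr {G G' A : Type} [Group G] [Fintype G] [Group G'] [Fintype G'] [AddCommGroup A]
    [DistribMulAction G A] [DistribMulAction G' A] (φ : G' → G) (hφ : Function.Bijective φ)
    (h : ∀ g' (x : A), g' • x = φ g' • x) (x : A) : tr G' x = tr G x := by
  rw [tr_apply, tr_apply, ← hφ.sum_comp]
  exact Finset.sum_congr rfl fun g _ => h g x

theorem Dat.transport {p R r q : ℕ} {k G G' E Λ M : Type} [Field k] [NumberField k] [Field E]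
    [NumberField E] [Algebra k E] [Group Λ] [MulSemiringAction Λ E] [Group G] [Fintype G]
    [MulSemiringAction G k] [MulSemiringAction G E] [Group G'] [Fintype G']
    [MulSemiringAction G' k] [MulSemiringAction G' E] {lam : Λ} [AddCommGroup M]
    [DistribMulAction G M] [DistribMulAction G' M] {ψ : Pr k q → ℕ} {c : G → Hm M (Un k)}
    {S : Finset (Pr k q)} (φ : G' →* G) (hφ : Function.Bijective φ)
    (hk : ∀ g (x : k), g • x = φ g • x) (hE : ∀ g (x : E), g • x = φ g • x)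
    (hM : ∀ g (x : M), g • x = φ g • x) (h : Dat p R r E lam ψ c S) :
    Dat p R r E lam ψ (fun g => c (φ g)) S := by
  obtain ⟨h, t, s, b, θ, a1, a2, a3, a4, a5, a6, a7, a8, a9, a10, a11, a12⟩ := h
  have e1 : ∀ g (x : Hm M (Un E)), g • x = φ g • x := fun g x => Hm.ext fun m => Un.ext (by
    rw [Hm.smul_apply, Hm.smul_apply, Un.val_smul, Un.val_smul, hE, hM, map_inv])
  have e2 : ∀ g (x : Hm M (Un k)), g • x = φ g • x := fun g x => Hm.ext fun m => Un.ext (by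
    rw [Hm.smul_apply, Hm.smul_apply, Un.val_smul, Un.val_smul, hk, hM, map_inv])
  have e3 : ∀ g (w : Pr k q), g • w = φ g • w := fun g w => Subtype.ext (smul_sp_congr (hk g) w.1)
  have e4 : ∀ g (x : Dg (Pr k q) (Du M)), g • x = φ g • x := fun g x => Dg.ext fun w =>
    Hm.ext fun m => by simp only [Dg.smul_apply, Hm.smul_apply, Zt.smul_eq, e3, hM, map_inv]
  exact ⟨h, t, s, b, θ, a1, fun g => by rw [a2, e1], by rw [a3, tr_congr φ hφ e1], a4, a5,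
    by rw [tr_congr φ hφ e2, a6], fun g w hw => e3 g w ▸ a7 _ w hw, a8, a9, a10,
    by rw [tr_congr φ hφ e4, a11], a12⟩

variable {H N S T : Subgroup Ga}

theorem Nrm.inf2 [h : Nrm H N] (A B : Subgroup Ga) [hB : B.Normal] : Nrm (H ⊓ A) (N ⊓ B) :=
  ⟨fun s hs t ht => ⟨h.conj s hs.1 t ht.1, hB.conj_mem t ht.2 s⟩⟩

theorem Nrm.inf3 [h : Nrm H N] (B : Subgroup Ga) [hB : B.Normal] : Nrm H (N ⊓ B) :=
  ⟨fun s hs t ht => ⟨h.conj s hs t ht.1, hB.conj_mem t ht.2 s⟩⟩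

theorem Nrm.self (H : Subgroup Ga) : Nrm H H :=
  ⟨fun _ hs _ ht => mul_mem (mul_mem hs ht) (inv_mem hs)⟩

theorem qt_bij {S1 N1 S2 N2 : Subgroup Ga} [Nrm S1 N1] [Nrm S2 N2] (hS : S1 ≤ S2)
    (hN : ∀ s ∈ S1, s ∈ N1 ↔ s ∈ N2) (hN2 : N2 ≤ S2) (hsur : ∀ s ∈ S2, ∃ ν ∈ N2, s * ν ∈ S1) :
    ∃ φ : Qt S1 N1 →* Qt S2 N2, Function.Bijective φ ∧
      ∀ s : S1, φ s = ((⟨s, hS s.2⟩ : S2) : Qt S2 N2) := by
  refine ⟨QuotientGroup.map _ _ (Subgroup.inclusion hS) fun s hs => (hN s s.2).1 hs,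
    ⟨(injective_iff_map_eq_one _).2 fun g hg => ?_, fun g => ?_⟩, fun _ => rfl⟩
  · induction g using QuotientGroup.induction_on with
    | H s => exact (QuotientGroup.eq_one_iff s).2 ((hN s s.2).2
        ((QuotientGroup.eq_one_iff (Subgroup.inclusion hS s)).1 hg))
  · induction g using QuotientGroup.induction_on with
    | H s =>
      obtain ⟨ν, hν, h⟩ := hsur s s.2
      refine ⟨((⟨_, h⟩ : S1) : Qt S1 N1), Eq.symm (QuotientGroup.eq.2 ?_)⟩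
      show (s : Ga)⁻¹ * (s * ν) ∈ N2
      simpa using hν

theorem exists_mul_stab {α : Om} (hT : T ≤ S) (h0 : (stabilizer Ga α).relIndex S ≠ 0)
    (h : (stabilizer Ga α).relIndex S ≤ (stabilizer Ga α).relIndex T) {s : Ga} (hs : s ∈ S) :
    ∃ ν ∈ T, s * ν ∈ stabilizer Ga α := by
  have e : ∀ U : Subgroup Ga, (stabilizer Ga α).relIndex U = (orbit U α).ncard := fun U =>
    index_stabilizer U α
  rw [e, e] at h
  rw [e] at h0
  have := Set.eq_of_subset_of_ncard_le (s := orbit T α) (t := orbit S α)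
    (by rintro _ ⟨t, rfl⟩; exact ⟨⟨t, hT t.2⟩, rfl⟩) h (Set.finite_of_ncard_ne_zero h0)
  obtain ⟨ν, hν⟩ := this.superset ⟨⟨s⁻¹, inv_mem hs⟩, rfl⟩
  refine ⟨ν, ν.2, ?_⟩
  have hν' : (ν : Ga) • α = s⁻¹ • α := hν
  rw [mem_stabilizer_iff, mul_smul, hν', smul_inv_smul]

variable {V : Type} [AddCommGroup V] [DistribMulAction Ga V] {M : AddSubgroup V}
  {c : Ga → V → Un Om}

theorem ex_chat [Nrm H N] {N1 : Subgroup Ga} [Nrm S N1] (hS : S ≤ H) (hN1 : N1 ≤ N) (hT : T ≤ N)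
    (hNH : N ≤ H) (hM : Stab H M) (hNM : ∀ ν ∈ N, ∀ y ∈ M, ν • y = y) (hc : Coc H M c)
    (hcN : ∀ ν ∈ N, ∀ y ∈ M, c ν y = 0) : ∃ ch : Qt S N1 → Hm M (Un (Fx T)),
      ∀ (s : S) (m : M), Un.inc (Fx T) Om (ch s m) = c s ((s : Ga)⁻¹ • (m : V)) := by
  have hm : ∀ (s : S) (m : M), (s : Ga)⁻¹ • (m : V) ∈ M := fun s m =>
    hM _ (inv_mem (hS s.2)) _ m.2
  have hI : ∀ (s : S) (m : M), Un.inc (Fx T) Om (lft T (c s ((s : Ga)⁻¹ • (m : V)))) =
      c s ((s : Ga)⁻¹ • (m : V)) := fun s m =>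
    inc_lft fun t ht => hc.fix hNH hM hNM hcN (hS s.2) (hT ht) (hm s m)
  refine ⟨fun g => Hm.of (AddMonoidHom.mk' (fun m => lft T (c g.out ((g.out : Ga)⁻¹ • (m : V))))
    fun x y => inc_inj _ Om ?_), fun s m => ?_⟩
  · rw [map_add, hI, hI, hI, AddSubgroup.coe_add, smul_add]
    exact hc.1 _ (hS g.out.2) _ (hm _ x) _ (hm _ y)
  · obtain ⟨ν, e⟩ := QuotientGroup.mk_out_eq_mul (N1.subgroupOf S) s
    have hν : ((ν : S) : Ga) ∈ N := hN1 ν.2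
    rw [Hm.of_apply, AddMonoidHom.mk'_apply, hI, e, Subgroup.coe_mul, mul_inv_rev, mul_smul,
      hNM _ (inv_mem hν) _ (hm s m), hc.mul_right hNH hNM hcN (hS s.2) hν (hm s m)]

section Cyc

variable {q : ℕ} [NeZero q] {ζ : Om} (hζ : IsPrimitiveRoot ζ q)

/-- the cyclotomic character -/
noncomputable def kap : Ga →* (ZMod q)ˣ := hζ.autToPow ℚ

theorem kap_spec (σ : Ga) : σ ζ = ζ ^ ((kap hζ σ : ZMod q)).val := (hζ.autToPow_spec ℚ σ).symm

/-- the kernel -/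
noncomputable def ZZ : Subgroup Ga := (kap hζ).ker

/-- the preimage of a cyclic subgroup -/
noncomputable def CC (a : (ZMod q)ˣ) : Subgroup Ga := (Subgroup.zpowers a).comap (kap hζ)

instance : (ZZ hζ).Normal := inferInstanceAs (kap hζ).ker.Normal

instance (a : (ZMod q)ˣ) : (CC hζ a).Normal := Subgroup.Normal.comap inferInstance _

theorem mem_ZZ {σ : Ga} : σ ∈ ZZ hζ ↔ σ ζ = ζ := by
  refine ⟨fun h => ?_, fun h => ?_⟩
  · rw [kap_spec hζ, show kap hζ σ = 1 from h]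
    exact (kap_spec hζ 1).symm.trans rfl |> fun e => by simpa using e
  · have e := (kap_spec hζ σ).symm.trans (h.trans (kap_spec hζ 1))
    exact Units.ext (ZMod.val_injective q ((hζ.pow_inj (ZMod.val_lt _) (ZMod.val_lt _) e).trans
      (by rw [map_one])))

instance : Ope (ZZ hζ) := Ope.mono (S := stabilizer Ga ζ) fun _ h => (mem_ZZ hζ).2 h

theorem ZZ_le (a : (ZMod q)ˣ) : ZZ hζ ≤ CC hζ a := fun σ h => by
  show kap hζ σ ∈ Subgroup.zpowers a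
  rw [show kap hζ σ = 1 from h]
  exact one_mem _

instance (a : (ZMod q)ˣ) : Ope (CC hζ a) := Ope.mono (ZZ_le hζ a)

instance (a : (ZMod q)ˣ) : Fact (N ⊓ ZZ hζ ≤ N ⊓ CC hζ a) := ⟨inf_le_inf_left _ (ZZ_le hζ a)⟩

instance (a : (ZMod q)ˣ) : Nrm (N ⊓ CC hζ a) (N ⊓ ZZ hζ) :=
  haveI := Nrm.self N
  Nrm.inf2 _ _

instance [Nrm H N] : Nrm (H ⊓ ZZ hζ) (N ⊓ ZZ hζ) := Nrm.inf2 _ _

instance [Nrm H N] (a : (ZMod q)ˣ) : Nrm (H ⊓ ZZ hζ) (N ⊓ CC hζ a) := Nrm.inf2 _ _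

variable (N) in
/-- the root of unity in the field it generates -/
def zE : Fx (N ⊓ ZZ hζ) := ⟨ζ, mem_fx.2 fun _ hs => (mem_ZZ hζ).1 hs.2⟩

theorem zE_prim : IsPrimitiveRoot (zE N hζ) q :=
  IsPrimitiveRoot.of_map_of_injective (f := algebraMap _ Om) hζ Subtype.val_injective

theorem ram_step (hS : RowMS) (hq : q.Prime) [Ope N] (hU : Unq (Fx N) q) :
    (∀ a, ∃ ν ∈ N, kap hζ ν = a) ∧ ∀ W : Pl (Fx (N ⊓ ZZ hζ)) q,
      W.1.asIdeal.inertiaDeg (𝓞 (Fx N)) = 1 ∧ ∀ (a : (ZMod q)ˣ)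
        (g : Qt (N ⊓ CC hζ a) (N ⊓ ZZ hζ)) (x : 𝓞 (Fx (N ⊓ ZZ hζ))), g • x - x ∈ W.1.asIdeal := by
  have := Nrm.self N
  have : Nrm N (N ⊓ ZZ hζ) := Nrm.inf3 _
  have h0 : ∀ g : Qt N (N ⊓ ZZ hζ), g • zE N hζ = zE N hζ → g = 1 := fun g hg => by
    induction g using QuotientGroup.induction_on with
    | H s =>
      exact (QuotientGroup.eq_one_iff s).2 ⟨s.2, (mem_ZZ hζ).2 (congrArg Subtype.val hg)⟩
  obtain ⟨h1, h2⟩ := hS.ramq (Fx N) _ (Qt N (N ⊓ ZZ hζ)) q (zE N hζ) hq (zE_prim hζ) h0 hU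
  refine ⟨fun a => ?_, fun W => ⟨(h2 W).1, fun a g x => ?_⟩⟩
  · have : Fact q.Prime := ⟨hq⟩
    have e : Nat.card (N.map (kap hζ)) = Nat.card (ZMod q)ˣ := by
      rw [← Subgroup.relIndex_ker, Nat.card_eq_fintype_card, ZMod.card_units, ← h1]
      exact (Subgroup.inf_relIndex_left _ _).symm
    exact (Subgroup.eq_top_of_card_eq _ e).ge (Subgroup.mem_top a)
  · induction g using QuotientGroup.induction_on with
    | H s => exact (h2 W).2 ((⟨s, s.2.1⟩ : N) : Qt N (N ⊓ ZZ hζ)) x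

theorem mem_zp {a : (ZMod q)ˣ} {σ : ↥(N ⊓ CC hζ a)} (hσ : kap hζ σ = a)
    (g : Qt (N ⊓ CC hζ a) (N ⊓ ZZ hζ)) :
    g ∈ Subgroup.zpowers (σ : Qt (N ⊓ CC hζ a) (N ⊓ ZZ hζ)) := by
  induction g using QuotientGroup.induction_on with
  | H s =>
    obtain ⟨n, hn⟩ := s.2.2
    refine ⟨n, (QuotientGroup.mk_zpow _ σ n).symm.trans (QuotientGroup.eq.2 ⟨((σ ^ n)⁻¹ * s).2.1, ?_⟩)⟩
    show kap hζ (((σ : Ga) ^ n)⁻¹ * s) = 1
    rw [map_mul, map_inv, map_zpow, hσ, inv_mul_eq_one]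
    exact hn

theorem mk_fr (hS : RowMS) {p R : ℕ} (hp : p.Prime) (hq : q.Prime) [Ope N] [Nrm H N]
    (hU : Unq (Fx N) q) {a : (ZMod q)ˣ} (ha : orderOf a = p ^ R) {i : Om} (hi : i ^ 2 = -1)
    (hiN : ∀ s ∈ N, s i = i) {σ : ↥(N ⊓ CC hζ a)} (hσ : kap hζ σ = a) :
    Fr p q R (a : ZMod q).val (Fx (N ⊓ CC hζ a)) (Qt (H ⊓ ZZ hζ) (N ⊓ ZZ hζ))
      (σ : Qt (N ⊓ CC hζ a) (N ⊓ ZZ hζ)) (zE N hζ) := by
  obtain ⟨h1, h2⟩ := ram_step hζ hS hq hU
  refine ⟨⟨hp, hq, inferInstance, ?_, mem_zp hζ hσ, zE_prim hζ, Subtype.ext ?_, ?_,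
    fun W => (h2 W).2 a _, ⟨⟨i, mem_fx.2 fun s hs => hiN s hs.1⟩, Subtype.ext hi⟩⟩,
    fun g s x => ?_, fun g x => Quotient.inductionOn' g fun _ => rfl⟩
  · have e : (N ⊓ CC hζ a).map (kap hζ) = Subgroup.zpowers a := by
      refine le_antisymm ?_ fun b hb => ?_
      · rintro _ ⟨s, hs, rfl⟩
        exact hs.2
      · obtain ⟨ν, hν, rfl⟩ := h1 b
        exact ⟨ν, ⟨hν, hb⟩, rfl⟩
    rw [← ha, ← Nat.card_zpowers, ← e, ← Subgroup.relIndex_ker]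
    show (N ⊓ ZZ hζ).relIndex (N ⊓ CC hζ a) = (ZZ hζ).relIndex (N ⊓ CC hζ a)
    rw [← Subgroup.inf_relIndex_right (ZZ hζ), ← Subgroup.inf_relIndex_right (N ⊓ ZZ hζ)]
    congr 1
    exact le_antisymm (fun s hs => ⟨hs.1.2, hs.2⟩) fun s hs => ⟨⟨hs.2.1, hs.1⟩, hs.2⟩
  · have := kap_spec hζ σ
    rw [hσ] at this
    exact this
  · rw [ZMod.natCast_zmod_val, orderOf_units, ha]
  · induction g using QuotientGroup.induction_on with
    | H t =>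
      induction s using QuotientGroup.induction_on with
      | H u =>
        refine Subtype.ext ?_
        have hm : ((u : Ga) * t)⁻¹ * (t * u) ∈ N ⊓ ZZ hζ := by
          refine ⟨?_, ?_⟩
          · have := mul_mem (Nrm.conj' (S := H) t.2.1 (inv_mem u.2.1)) u.2.1
            simpa [mul_assoc] using this
          · show kap hζ _ = 1
            rw [map_mul, map_inv, map_mul, map_mul, mul_comm (kap hζ u), inv_mul_cancel]
        have := congrArg ((u : Ga) * (t : Ga) : Ga) (x.fix hm)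
        simpa using this

theorem f_cop (hS : RowMS) (a : (ZMod q)ˣ) [Ope T] (w : Sp (Fx (T ⊓ CC hζ a))) :
    w.asIdeal.inertiaDeg (𝓞 (Fx T)) ∣ (Subgroup.zpowers a).index := by
  have := Nrm.self T
  have : Nrm T (T ⊓ CC hζ a) := Nrm.inf3 _
  refine hS.fexp _ _ (Qt T (T ⊓ CC hζ a)) _ (fun g => ?_) w
  induction g using QuotientGroup.induction_on with
  | H s =>
    rw [← QuotientGroup.mk_pow, QuotientGroup.eq_one_iff]
    refine ⟨pow_mem s.2 _, ?_⟩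
    show kap hζ ((s : Ga) ^ _) ∈ Subgroup.zpowers a
    rw [map_pow]
    exact Subgroup.pow_index_mem _ _

theorem split_C {a : (ZMod q)ˣ} (hNH : N ≤ H) (h1 : ∀ a, ∃ ν ∈ N, kap hζ ν = a) {σ : Ga}
    (hσ : σ ∈ H ⊓ CC hζ a) : ∃ s ∈ H ⊓ ZZ hζ, ∃ ν ∈ N ⊓ CC hζ a, σ = s * ν := by
  obtain ⟨ν, hν, e⟩ := h1 (kap hζ σ)
  refine ⟨σ * ν⁻¹, ⟨H.mul_mem hσ.1 (H.inv_mem (hNH hν)), ?_⟩, ν, ⟨hν, ?_⟩, by simp⟩
  · show kap hζ _ = 1
    simp [e]
  · show kap hζ ν ∈ Subgroup.zpowers a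
    rw [e]
    exact hσ.2

theorem finish {p h : ℕ} {a : (ZMod q)ˣ} [Ope H] (ha : (Subgroup.zpowers a).index.Coprime p)
    (hh : h.Coprime p) (hNH : N ≤ H) (h1 : ∀ a, ∃ ν ∈ N, kap hζ ν = a) (hM : Stab H M)
    (hNM : ∀ ν ∈ N, ∀ y ∈ M, ν • y = y) (hc : Coc H M c) (hcN : ∀ ν ∈ N, ∀ y ∈ M, c ν y = 0)
    {β : V → Un Om} (hβ : Bd (H ⊓ ZZ hζ) M h c β)
    (hβN : ∀ ν ∈ N ⊓ CC hζ a, ∀ y ∈ M, ν • β y = β y) :
    ∃ t : ℕ, t.Coprime p ∧ ∃ β, Bd H M t c β := by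
  have hβ' : Bd (H ⊓ CC hζ a) M h c β := ⟨hβ.1, fun σ hσ y hy => by
    obtain ⟨s, hs, ν, hν, rfl⟩ := split_C hζ hNH h1 hσ
    rw [hc.mul_right hNH hNM hcN hs.1 hν.1 hy, mul_smul, mul_smul, hβN ν hν y hy,
      hNM ν hν.1 y hy, hβ.2 s hs y hy]⟩
  refine ⟨_, Nat.Coprime.mul_left (ha.coprime_dvd_left ?_) hh, cores relIndex_ne hM hc hβ'⟩
  rw [Subgroup.inf_relIndex_left]
  refine (Subgroup.relIndex_dvd_index_of_normal _ _).trans ?_
  rw [CC, Subgroup.index_comap]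
  exact Subgroup.relIndex_dvd_index_of_normal _ _

end Cyc

end Pool.Agent.MP_db5b97_nt.H31
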