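import Mathlib

/-! Statements about permutation groups. -/

namespace Pool.Agent.MP_db5b97_nt.H31

open MulAction

/-- the image of the action contains the alternating group -/
def Gi (G X : Type) [Group G] [MulAction G X] [Fintype X] [DecidableEq X] : Prop :=
  ∀ σ : Equiv.Perm X, Equiv.Perm.sign σ = 1 → ∃ g : G, ∀ x, g • x = σ x

/-- the number of moved points -/
def mv (X : Type) {G : Type} [Group G] [MulAction G X] [Fintype X] [DecidableEq X] (g : G) : ℕ :=
  (Finset.univ.filter fun x : X => g • x ≠ x).card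

/-- some element acts with order `p` -/
def PD (p : ℕ) (G X : Type) [Group G] [MulAction G X] : Prop :=
  ∃ g : G, (∃ x : X, g • x ≠ x) ∧ ∀ x : X, g ^ p • x = x

/-- elements of `H` whose image acts trivially on `X` act trivially on `Y` -/
def KC {H G : Type} [Group H] [Group G] (φ : H →* G) (X Y : Type) [MulAction G X]
    [MulAction H Y] : Prop :=
  ∀ h : H, (∀ x : X, φ h • x = x) → ∀ y : Y, h • y = y

/-- activity: the averaged norm form of `σ` takes a small value -/
def QA (G X : Type) [Group G] [Fintype G] [MulAction G X] [Fintype X] (σ : G) (p : ℕ) : Prop :=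
  ∃ v : X → ℚ, ∑ g : G, ∑ i ∈ Finset.range p, ∑ x : X, v (g • x) * v (g • σ ^ i • x) <
    Fintype.card G * ∑ x : X, v x ^ 2

/-- a fibre of an equivariant map -/
def fib {G Y W : Type} [Group G] [MulAction G Y] [MulAction G W] (ω : Y →[G] W) (w : W) :
    SubMulAction (stabilizer G w) Y where
  carrier := {y | ω y = w}
  smul_mem' := fun g y hy => by
    have h : ω y = w := hy
    show ω ((g : G) • y) = w
    rw [map_smul, h]
    exact g.2

theorem mem_fib {G Y W : Type} [Group G] [MulAction G Y] [MulAction G W] {ω : Y →[G] W} {w : W}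
    {y : Y} : y ∈ fib ω w ↔ ω y = w := Iff.rfl

noncomputable instance {G Y W : Type} [Group G] [MulAction G Y] [MulAction G W] [Finite Y]
    (ω : Y →[G] W) (w : W) : Fintype (fib ω w) := Fintype.ofFinite _

/-- two levels of blocks: `X → Y` has fibres of size `s`, `Y → W` has fibres of size `m`, and
`W` has `t` elements -/
structure Lay {G X Y W : Type} [Group G] [MulAction G X] [MulAction G Y] [MulAction G W]
    (β : X →[G] Y) (ω : Y →[G] W) (s m t : ℕ) : Prop where
  sb : Function.Surjective β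
  so : Function.Surjective ω
  cs : ∀ b, Nat.card {x // β x = b} = s
  cm : ∀ w, Nat.card {y // ω y = w} = m
  ct : Nat.card W = t
  cx : Nat.card X = t * m * s

/-- Bochert: minimal degree of a doubly transitive group -/
def RowB2 : Prop :=
  ∀ (G X : Type) [Group G] [Finite G] [MulAction G X] [Fintype X] [DecidableEq X],
    IsMultiplyPretransitive G X 2 → ¬ Gi G X → ∀ g : G, (∃ x : X, g • x ≠ x) →
    Fintype.card X ≤ 8 * mv X g

/-- Babai: minimal degree of a primitive group that is not doubly transitive -/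
def RowBAB : Prop :=
  ∀ (G X : Type) [Group G] [Finite G] [MulAction G X] [Fintype X] [DecidableEq X],
    IsPreprimitive G X → ¬ IsMultiplyPretransitive G X 2 → ∀ g : G, (∃ x : X, g • x ≠ x) →
    Fintype.card X ≤ 8 * mv X g ^ 2 + 1

/-- minimal degree of a primitive group -/
def RowBB : Prop :=
  ∀ (G X : Type) [Group G] [Finite G] [MulAction G X] [Fintype X] [DecidableEq X],
    IsPreprimitive G X → ¬ Gi G X → ∀ g : G, (∃ x : X, g • x ≠ x) →
    Fintype.card X ≤ 8 * mv X g ^ 2 + 1

theorem rowBB (h2 : RowB2) (hb : RowBAB) : RowBB := by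
  intro G X _ _ _ _ _ hp hg g hx
  by_cases h : IsMultiplyPretransitive G X 2
  · have := h2 G X h hg g hx
    nlinarith [Nat.le_self_pow (n := 2) (by norm_num) (mv X g)]
  · exact hb G X hp h g hx

/-- subgroups of small index in an alternating group -/
def RowIL : Prop :=
  ∃ k0 : ℕ, ∀ (Z : Type) [Fintype Z] [DecidableEq Z] (H : Subgroup (Equiv.Perm Z)),
    k0 ≤ Fintype.card Z → H ≤ alternatingGroup Z →
    8 * H.relIndex (alternatingGroup Z) ≤ Fintype.card Z ^ 2 →
    ∃ z : Z, ∀ σ ∈ alternatingGroup Z, σ z = z → σ ∈ H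

/-- groups with a commutative transitive normal subgroup are small -/
def RowHOL : Prop :=
  ∀ (L O : Type) [Group L] [Finite L] [MulAction L O] [Fintype O] [Nonempty O]
    (A : Subgroup L), A.Normal →
    (∀ x y : O, ∃ a ∈ A, a • x = y) → (∀ a ∈ A, ∀ b ∈ A, ∀ x : O, a • b • x = b • a • x) →
    (toPermHom L O).ker.index ≤ Fintype.card O ^ (1 + Nat.log 2 (Fintype.card O))

/-- a large simple quotient is invisible on an orbit of a solvable normal subgroup -/
def RowNP : Prop :=
  ∀ (G B S : Type) [Group G] [Finite G] [MulAction G B] [Fintype B] [Group S] [IsSimpleGroup S]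
    (R : Subgroup G) (ψ : G →* S), R.Normal → Group.IsSolvable R → (∀ x y : B, ∃ a ∈ R, a • x = y) →
    Function.Surjective ψ → (∃ a b : S, a * b ≠ b * a) →
    Fintype.card B ^ (1 + Nat.log 2 (Fintype.card B)) < Nat.card S →
    ∀ s : S, ∃ g : G, ψ g = s ∧ ∀ x : B, g • x = x

/-- a large alternating section gives an element of small support -/
def RowG4 : Prop :=
  ∃ k0 : ℕ, ∀ (H Y Z : Type) [Group H] [Finite H] [MulAction H Y] [Fintype Y] [DecidableEq Y]
    [MulAction H Z] [Fintype Z] [DecidableEq Z], k0 ≤ Fintype.card Z → Gi H Z →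
    8 * Fintype.card Y ≤ Fintype.card Z ^ 2 →
    ∃ h : H, (∃ z : Z, h • z ≠ z) ∧ mv Y h * Fintype.card Z ≤ 10 * Fintype.card Y

/-- bound for the degree of transitivity -/
def RowG5 : Prop :=
  ∃ C : ℕ, ∀ (G X : Type) [Group G] [Finite G] [MulAction G X] [Fintype X] [DecidableEq X] (t : ℕ),
    t ≤ Fintype.card X → IsMultiplyPretransitive G X t → ¬ Gi G X →
    t ≤ C * (Nat.log 2 (Fintype.card X) + 1) ^ 3

/-- Wielandt: primes dividing a point stabiliser divide every transitive constituent -/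
def RowWIE : Prop :=
  ∀ (G X : Type) [Group G] [Finite G] [MulAction G X] [Finite X] (p : ℕ) (x z : X), p.Prime →
    IsPreprimitive G X → (∃ g : G, g • x = x ∧ g • z ≠ z) → PD p (stabilizer G x) X →
    PD p (stabilizer G x) (orbit (stabilizer G x) z)

/-- the large primitive component of a transitive action -/
def RowLAY : Prop :=
  ∀ (G X : Type) [Group G] [Finite G] [MulAction G X] [Finite X] (y : ℕ), IsPretransitive G X →
    2 ≤ y → y ≤ Nat.card X → Nat.card X < y ^ 2 →
    ∃ (Y W : Type) (_ : MulAction G Y) (_ : MulAction G W) (_ : Finite Y) (β : X →[G] Y)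
      (ω : Y →[G] W) (s m t : ℕ) (w : W), Lay β ω s m t ∧ s < y ∧ t < y ∧ 2 ≤ m ∧
      IsPreprimitive (stabilizer G w) (fib ω w) ∧ (s = 1 → t = 1 → IsPreprimitive G X) ∧
      KC (stabilizer G w).subtype X (fib ω w) ∧
      ∀ p, p.Prime → y ≤ p → PD p G X → PD p (stabilizer G w) (fib ω w)

/-- passing to a primitive section of at most half the degree -/
def RowSTEP : Prop :=
  ∀ (y t : ℕ) (J X : Type) [Group J] [Finite J] [MulAction J X] [Finite X], 2 ≤ y →
    Nat.card X < y ^ 2 → IsPretransitive J X → ¬ IsMultiplyPretransitive J X (t + 1) →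
    ∀ T : Finset ℕ, (∀ p ∈ T, p.Prime ∧ y ≤ p ∧ PD p J X) → T.card ≤ t ∨
      ∃ (H Y : Type) (_ : Group H) (_ : Finite H) (_ : MulAction H Y) (_ : Finite Y) (φ : H →* J),
        IsPreprimitive H Y ∧ KC φ X Y ∧ 2 * Nat.card Y ≤ Nat.card X ∧
        ∃ T' ⊆ T, T.card ≤ T'.card + t ∧ ∀ p ∈ T', PD p H Y

/-- few large primes divide the order of a primitive group that is not a giant -/
def RowREC : Prop :=
  ∃ C0 C : ℕ, ∀ (n y : ℕ), C0 * n ≤ y ^ 2 → C0 ≤ y →
    ∀ (H Y : Type) [Group H] [Finite H] [MulAction H Y] [Fintype Y] [DecidableEq Y],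
      IsPreprimitive H Y → ¬ Gi H Y → Fintype.card Y ≤ n →
      ∀ T : Finset ℕ, (∀ p ∈ T, p.Prime ∧ y ≤ p ∧ PD p H Y) →
        T.card ≤ C * (Nat.log 2 (Fintype.card Y) + 1) ^ 4

/-- active primes for a giant component -/
def RowG7 : Prop :=
  ∀ (G X Y W : Type) [Group G] [Fintype G] [MulAction G X] [MulAction G Y] [MulAction G W]
    [Fintype X] [Finite Y] [DecidableEq Y] (β : X →[G] Y) (ω : Y →[G] W) (s m t : ℕ) (w : W)
    (σ : G) (p : ℕ), IsPretransitive G X → Lay β ω s m t → Gi (stabilizer G w) (fib ω w) →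
    p.Prime → 3 ≤ p → s < p → t < p → (∀ x : X, σ ^ p • x = x) → QA G X σ p → p ∣ m ∨ p ∣ m - 1

/-- activity on orbits -/
structure RowACT : Prop where
  orb : ∀ (G X : Type) [Group G] [Fintype G] [MulAction G X] [Fintype X] (σ : G) (p : ℕ),
    QA G X σ p → ∃ x : X, @QA G (orbit G x) _ _ _ (Fintype.ofFinite _) σ p
  form : ∀ (G X : Type) [Group G] [Fintype G] [MulAction G X] [Fintype X] (σ : G) (p : ℕ),
    IsPretransitive G X → p.Prime → Fintype.card X < p ^ 2 → (∀ x : X, σ ^ p • x = x) →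
    QA G X σ p → (∃ x : X, σ • x ≠ x) ∧ ∃ c f : ℕ, 1 ≤ c ∧ f ≤ c ∧ Fintype.card X = c * p + f

/-- a set of primes distributed over blocks of total size at most `n` -/
def GoodFam (n y K : ℕ) (A : Finset ℕ) : Prop :=
  ∃ (ι : Type) (_ : Fintype ι) (m : ι → ℕ) (T : ι → Finset ℕ), ∑ i, m i ≤ n ∧
    (∀ p ∈ A, ∃ i, p ∈ T i) ∧ (∀ i, (T i).card ≤ K) ∧
    ∀ i, ∀ p ∈ T i, p.Prime ∧ y ≤ p ∧ ∃ c f : ℕ, 1 ≤ c ∧ f ≤ c ∧ m i = c * p + f

/-- the structure of the set of large active primes -/
def RowGOOD : Prop :=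
  ∃ C0 C : ℕ, ∀ (G X : Type) [Group G] [Fintype G] [MulAction G X] [Fintype X] (y : ℕ)
    (x : ℕ → G) (A : Finset ℕ), C0 * Fintype.card X ≤ y ^ 2 → C0 ≤ y →
    (∀ p ∈ A, p.Prime ∧ y ≤ p ∧ (∀ a : X, x p ^ p • a = a) ∧ QA G X (x p) p) →
    GoodFam (Fintype.card X) y (C * (Nat.log 2 (Fintype.card X) + 1) ^ 4) A

end Pool.Agent.MP_db5b97_nt.H31
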