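import Pool.Agent.MP_db5b97_nt.H31.SpecG

/-! Statements about primes. -/

namespace Pool.Agent.MP_db5b97_nt.H31

open Filter Topology

/-- the size function -/
noncomputable def sz (n : ℕ) : ℝ := Real.sqrt (n * Real.log n)

/-- the exponent of the earlier bound -/
def JJ (k : ℕ) : ℕ := k + k * (1 + k * (k + 1))

/-- the prime number theorem -/
def RowPNT : Prop := Tendsto (fun x : ℝ => Chebyshev.theta x / x) atTop (𝓝 1)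

/-- a weighted form of the prime number theorem -/
def RowPL : Prop :=
  Tendsto (fun z : ℝ => (∑ p ∈ (Finset.range (⌊z⌋₊ + 1)).filter Nat.Prime,
    (p : ℝ) * Real.log p) / z ^ 2) atTop (𝓝 (1 / 2))

/-- Landau's extremal problem, upper bound -/
def RowLAND : Prop :=
  ∀ ε : ℝ, 0 < ε → ∀ᶠ n : ℕ in atTop, ∀ A : Finset ℕ, (∀ p ∈ A, p.Prime) → ∑ p ∈ A, p ≤ n →
    ∑ p ∈ A, Real.log p ≤ (1 + ε) * sz n

/-- Landau's extremal problem, lower bound -/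
def RowLOW : Prop :=
  ∀ ε : ℝ, 0 < ε → ∀ᶠ n : ℕ in atTop, ∃ A : Finset ℕ, (∀ p ∈ A, p.Prime) ∧ ∑ p ∈ A, p ≤ n ∧
    (1 - ε) * sz n ≤ ∑ p ∈ A, Real.log p

/-- the Selberg sieve on set systems -/
def RowSEL : Prop :=
  ∀ (A : Finset ℕ) (E : ℕ → Finset ℕ) (F : Finset (Finset ℕ)) (ν : ℕ → ℝ) (X R : ℝ),
    ∅ ∈ F → (∀ D ∈ F, ∀ D' ⊆ D, D' ∈ F) →
    (∀ D ∈ F, ∀ p ∈ D, 0 < ν p ∧ ν p < 1) →
    (∀ D ∈ F, ∀ D' ∈ F, |((A.filter fun n => ∀ p ∈ D ∪ D', n ∈ E p).card : ℝ) -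
      X * ∏ p ∈ D ∪ D', ν p| ≤ R) →
    ((A.filter fun n => ∀ D ∈ F, ∀ p ∈ D, n ∉ E p).card : ℝ) ≤
      X / (∑ D ∈ F, ∏ p ∈ D, ν p / (1 - ν p)) + R * (∑ D ∈ F, ∏ p ∈ D, 1 / ν p) ^ 2

/-- lower bound for the main sum of the sieve of dimension `k` -/
def RowSG : Prop :=
  ∃ c : ℝ, 0 < c ∧ ∃ B : ℕ, ∀ (k w Y : ℕ), 1 ≤ k → k < w → 1 ≤ Y →
    (c * Real.log Y / Real.log w ^ B) ^ k ≤
      ∑ D ∈ ((Finset.range (Y ^ k + 1)).filter fun p => p.Prime ∧ w < p).powerset.filter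
        (fun D => ∏ p ∈ D, p ≤ Y ^ k), ∏ p ∈ D, ((k : ℝ) / p) / (1 - (k : ℝ) / p)

open Classical in
/-- simultaneous prime values of linear forms with small coefficients -/
def RowSV : Prop :=
  ∀ k a : ℕ, 1 ≤ k → ∀ᶠ X : ℕ in atTop, ∀ (α : Fin k → ℕ) (b : Fin k → ℤ),
    (∀ i, 1 ≤ α i ∧ (α i : ℝ) ≤ Real.log X ^ a ∧ (|b i| : ℝ) ≤ Real.log X ^ a) →
    (∀ i j, i ≠ j → α i * b j ≠ α j * b i) →
    (((Finset.range X).filter fun n : ℕ => ∀ i, ∃ p : ℕ, p.Prime ∧ X < p ^ 2 ∧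
      (p : ℤ) = α i * n + b i).card : ℝ) * Real.log X ^ k ≤ X * Real.sqrt (Real.log X)

open Classical in
/-- simultaneous prime values of integer parts -/
def RowSV2 : Prop :=
  ∀ k a : ℕ, 1 ≤ k → ∀ᶠ X : ℕ in atTop, ∀ (c δ : Fin k → ℕ),
    (∀ i, 1 ≤ c i ∧ (c i : ℝ) ≤ Real.log X ^ a ∧ δ i ≤ 1) →
    (((Finset.range X).filter fun m : ℕ => (∀ i, (m / c i - δ i).Prime ∧ X < (m / c i - δ i) ^ 2) ∧
      Function.Injective fun i => m / c i - δ i).card : ℝ) * Real.log X ^ k ≤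
      X * Real.log X ^ (3 / 4 : ℝ)

/-- the primes at least `y` of the form attached to a block of size `m` -/
noncomputable def PM (y m : ℕ) : Finset ℕ := by
  classical
  exact (Finset.range (m + 1)).filter fun p => p.Prime ∧ y ≤ p ∧
    ∃ c f : ℕ, 1 ≤ c ∧ f ≤ c ∧ m = c * p + f

theorem mem_PM {y m p : ℕ} : p ∈ PM y m ↔ p ≤ m ∧ p.Prime ∧ y ≤ p ∧
    ∃ c f : ℕ, 1 ≤ c ∧ f ≤ c ∧ m = c * p + f := by
  simp only [PM, Finset.mem_filter, Finset.mem_range, Nat.lt_succ_iff]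

/-- block sizes with many primes are rare -/
def RowRICH : Prop :=
  ∀ (τ ε : ℝ) (a : ℕ), 0 < τ → 0 < ε → ∀ᶠ y : ℕ in atTop, ∀ S : Finset ℕ,
    (∀ m ∈ S, (m : ℝ) ≤ y * Real.log y ^ a ∧ 2 ≤ (PM y m).card ∧
      τ * (m / y : ℕ) ≤ (PM y m).card) →
    (∑ m ∈ S, (PM y m).card : ℝ) * Real.log y ≤ ε * y

/-- the contribution of the large active primes -/
def RowNUM : Prop :=
  ∀ (η ε : ℝ) (C : ℕ), 0 < η → η ≤ 1 → 0 < ε → ∀ᶠ n : ℕ in atTop, ∀ A : Finset ℕ,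
    GoodFam n ⌈η * sz n⌉₊ (C * (Nat.log 2 n + 1) ^ 4) A → ∑ p ∈ A, Real.log p ≤ (1 + ε) * sz n

/-- the contribution of the small primes -/
structure RowSMALL : Prop where
  one : ∀ ε : ℝ, 0 < ε → ∃ η : ℝ, 0 < η ∧ η ≤ 1 ∧ ∀ᶠ n : ℕ in atTop,
    ((∏ p ∈ (Finset.range ⌈η * sz n⌉₊).filter Nat.Prime, p ^ JJ (Nat.log p n) : ℕ) : ℝ) ≤
      Real.exp (ε * sz n)
  two : ∀ ε : ℝ, 0 < ε → ∀ᶠ n : ℕ in atTop,
    ((2 * ∏ p ∈ (Finset.range (n + 1)).filter (fun p => p.Prime ∧ p ^ 2 ≤ n),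
      p ^ (Nat.log p n * JJ (Nat.log p (n ^ 2))) : ℕ) : ℝ) ≤ Real.exp (ε * sz n)
  big : ∀ (η : ℝ) (C : ℕ), 0 < η → ∀ᶠ n : ℕ in atTop,
    C * n ≤ ⌈η * sz n⌉₊ ^ 2 ∧ C ≤ ⌈η * sz n⌉₊
  shift : Tendsto (fun N : ℕ => sz (N + 1) / sz N) atTop (𝓝 1)

end Pool.Agent.MP_db5b97_nt.H31
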