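import Pool.Agent.MP_db5b97_nt.H85.Spec2
import Pool.Agent.MP_db5b97_nt.H85.TR

/-! Statements of the pieces of the sharp index bound. -/

namespace Pool.Agent.MP_db5b97_nt.H31

open H85 NumberField IsDedekindDomain Polynomial

/-! ### Modules -/

/-- homomorphisms with the conjugation action -/
def Hm (M A : Type) [AddCommGroup M] [AddCommGroup A] : Type := M →+ A

namespace Hm

variable {M A B : Type} [AddCommGroup M] [AddCommGroup A] [AddCommGroup B]

instance : AddCommGroup (Hm M A) := inferInstanceAs (AddCommGroup (M →+ A))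

instance : FunLike (Hm M A) M A := inferInstanceAs (FunLike (M →+ A) M A)

instance : AddMonoidHomClass (Hm M A) M A := inferInstanceAs (AddMonoidHomClass (M →+ A) M A)

/-- a homomorphism as an element of the module -/
def of (f : M →+ A) : Hm M A := f

/-- the underlying homomorphism -/
def hom (f : Hm M A) : M →+ A := f

@[simp] theorem of_apply (f : M →+ A) (m : M) : of f m = f m := rfl

@[simp] theorem hom_apply (f : Hm M A) (m : M) : f.hom m = f m := rfl

@[ext] theorem ext {f g : Hm M A} (h : ∀ m, f m = g m) : f = g := DFunLike.ext f g h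

@[simp] theorem zero_apply (m : M) : (0 : Hm M A) m = 0 := rfl

@[simp] theorem add_apply (f g : Hm M A) (m : M) : (f + g) m = f m + g m := rfl

@[simp] theorem neg_apply (f : Hm M A) (m : M) : (-f) m = -f m := rfl

@[simp] theorem sub_apply (f g : Hm M A) (m : M) : (f - g) m = f m - g m := rfl

@[simp] theorem nsmul_apply (n : ℕ) (f : Hm M A) (m : M) : (n • f) m = n • f m := rfl

@[simp] theorem zsmul_apply (n : ℤ) (f : Hm M A) (m : M) : (n • f) m = n • f m := rfl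

@[simp] theorem sum_apply {ι : Type} (s : Finset ι) (f : ι → Hm M A) (m : M) :
    (∑ i ∈ s, f i) m = ∑ i ∈ s, f i m := AddMonoidHom.finsetSum_apply f s m

instance {G : Type} [Group G] [DistribMulAction G M] [DistribMulAction G A] :
    DistribMulAction G (Hm M A) where
  smul g f := of ((DistribSMul.toAddMonoidHom A g).comp
    (f.hom.comp (DistribSMul.toAddMonoidHom M g⁻¹)))
  one_smul f := ext fun m => show (1 : G) • f ((1 : G)⁻¹ • m) = f m by simp
  mul_smul g h f := ext fun m =>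
    show (g * h) • f ((g * h)⁻¹ • m) = g • h • f (h⁻¹ • g⁻¹ • m) by simp [mul_smul]
  smul_zero g := ext fun _ => smul_zero g
  smul_add g _ _ := ext fun _ => smul_add g _ _

@[simp] theorem smul_apply {G : Type} [Group G] [DistribMulAction G M] [DistribMulAction G A]
    (g : G) (f : Hm M A) (m : M) : (g • f) m = g • f (g⁻¹ • m) := rfl

/-- composition with a homomorphism of the targets -/
def post (φ : A →+ B) : Hm M A →+ Hm M B where
  toFun f := of (φ.comp f.hom)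
  map_zero' := ext fun _ => φ.map_zero
  map_add' _ _ := ext fun _ => φ.map_add _ _

@[simp] theorem post_apply (φ : A →+ B) (f : Hm M A) (m : M) : post φ f m = φ (f m) := rfl

end Hm

/-- the integers with the trivial action -/
def Zt : Type := ℤ

instance : AddCommGroup Zt := inferInstanceAs (AddCommGroup ℤ)

instance {G : Type} [Group G] : DistribMulAction G Zt where
  smul _ n := n
  one_smul _ := rfl
  mul_smul _ _ _ := rfl
  smul_zero _ := rfl
  smul_add _ _ _ := rfl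

/-- the underlying integer -/
def Zt.val : Zt ≃+ ℤ := AddEquiv.refl ℤ

@[simp] theorem Zt.smul_eq {G : Type} [Group G] (g : G) (n : Zt) : g • n = n := rfl

/-- the dual lattice -/
abbrev Du (M : Type) [AddCommGroup M] : Type := Hm M Zt

/-- finitely supported functions with the diagonal action -/
def Dg (Y N : Type) [AddCommGroup N] : Type := Y →₀ N

namespace Dg

variable {Y N : Type} [AddCommGroup N]

noncomputable instance : AddCommGroup (Dg Y N) := inferInstanceAs (AddCommGroup (Y →₀ N))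

instance : FunLike (Dg Y N) Y N := inferInstanceAs (FunLike (Y →₀ N) Y N)

/-- a finitely supported function as an element of the module -/
def of (f : Y →₀ N) : Dg Y N := f

/-- the underlying finitely supported function -/
def fs (f : Dg Y N) : Y →₀ N := f

@[simp] theorem of_apply (f : Y →₀ N) (y : Y) : of f y = f y := rfl

@[simp] theorem fs_apply (f : Dg Y N) (y : Y) : f.fs y = f y := rfl

@[ext] theorem ext {f g : Dg Y N} (h : ∀ y, f y = g y) : f = g := DFunLike.ext f g h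

@[simp] theorem zero_apply (y : Y) : (0 : Dg Y N) y = 0 := rfl

@[simp] theorem add_apply (f g : Dg Y N) (y : Y) : (f + g) y = f y + g y := rfl

@[simp] theorem neg_apply (f : Dg Y N) (y : Y) : (-f) y = -f y := rfl

@[simp] theorem sub_apply (f g : Dg Y N) (y : Y) : (f - g) y = f y - g y := rfl

@[simp] theorem nsmul_apply (n : ℕ) (f : Dg Y N) (y : Y) : (n • f) y = n • f y := rfl

@[simp] theorem sum_apply {ι : Type} (s : Finset ι) (f : ι → Dg Y N) (y : Y) :
    (∑ i ∈ s, f i) y = ∑ i ∈ s, f i y := Finsupp.finsetSum_apply s f y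

/-- the function with one value -/
noncomputable def single (y : Y) : N →+ Dg Y N := Finsupp.singleAddHom y

/-- the sum of the values -/
noncomputable def deg : Dg Y N →+ N := Finsupp.liftAddHom fun _ : Y => AddMonoidHom.id N

@[simp] theorem deg_single (y : Y) (n : N) : deg (single y n) = n :=
  Finsupp.liftAddHom_apply_single _ y n

variable {G : Type} [Group G] [MulAction G Y] [DistribMulAction G N]

noncomputable instance : DistribMulAction G (Dg Y N) where
  smul g f := of ((f.fs.mapRange (g • ·) (smul_zero g)).equivMapDomain (MulAction.toPerm g))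
  one_smul f := ext fun y => show (1 : G) • f ((1 : G)⁻¹ • y) = f y by simp
  mul_smul g h f := ext fun y =>
    show (g * h) • f ((g * h)⁻¹ • y) = g • h • f (h⁻¹ • g⁻¹ • y) by simp [mul_smul]
  smul_zero g := ext fun _ => smul_zero g
  smul_add g _ _ := ext fun _ => smul_add g _ _

@[simp] theorem smul_apply (g : G) (f : Dg Y N) (y : Y) : (g • f) y = g • f (g⁻¹ • y) := rfl

end Dg

/-- the trace -/
noncomputable def tr (G : Type) [Group G] [Fintype G] {A : Type} [AddCommGroup A]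
    [DistribMulAction G A] : A →+ A := ∑ g : G, DistribSMul.toAddMonoidHom A g

theorem tr_apply (G : Type) [Group G] [Fintype G] {A : Type} [AddCommGroup A]
    [DistribMulAction G A] (x : A) : tr G x = ∑ g : G, g • x := by
  simp [tr, AddMonoidHom.finsetSum_apply]

/-- cocycles -/
def Cc {G A : Type} [Group G] [AddCommGroup A] [DistribMulAction G A] (c : G → A) : Prop :=
  ∀ s t, c (s * t) = c s + s • c t

/-! ### Cohomology of two-term complexes -/

/-- the hypotheses on a map of two-term complexes -/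
structure CTHyp (p : ℕ) (P : Type) {U' I' U I : Type} [Group P] [AddCommGroup U']
    [DistribMulAction P U'] [AddCommGroup I'] [DistribMulAction P I'] [AddCommGroup U]
    [DistribMulAction P U] [AddCommGroup I] [DistribMulAction P I] (a' : U' →+ I') (a : U →+ I)
    (nU : U' →+ U) (nI : I' →+ I) : Prop where
  pp : p.Prime
  pg : IsPGroup p P
  e1 : ∀ (s : P) x, a' (s • x) = s • a' x
  e2 : ∀ (s : P) x, a (s • x) = s • a x
  e3 : ∀ (s : P) x, nU (s • x) = s • nU x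
  e4 : ∀ (s : P) x, nI (s • x) = s • nI x
  sq : ∀ x, a (nU x) = nI (a' x)
  h9 : ∀ Q : Subgroup P, H90 U' Q
  lay : ∀ (Q : Subgroup P) (σ : P), σ ∈ Subgroup.normalizer (Q : Set P) → σ ^ p ∈ Q → σ ∉ Q →
    LayHyp p Q σ a' a nU nI

/-- injectivity in degree one -/
def RowGCT1 : Prop :=
  ∀ (p : ℕ) (P U' I' U I M : Type) [Group P] [Fintype P] [AddCommGroup U']
    [DistribMulAction P U'] [AddCommGroup I'] [DistribMulAction P I'] [AddCommGroup U]
    [DistribMulAction P U] [AddCommGroup I] [DistribMulAction P I] [AddCommGroup M]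
    [DistribMulAction P M] [Module.Free ℤ M] (a' : U' →+ I') (a : U →+ I) (nU : U' →+ U)
    (nI : I' →+ I), CTHyp p P a' a nU nI →
    ∀ (c : P → Hm M U') (D : Hm M I') (β : Hm M U) (y : Hm M I), Cc c →
      (∀ s, Hm.post a' (c s) = s • D - D) → (∀ s, Hm.post nU (c s) = s • β - β) →
      Hm.post nI D - Hm.post a β = tr P y →
      ∃ (u : Hm M U') (ε : Hm M I'), (∀ s, c s = s • u - u) ∧ Hm.post a' u = D - tr P ε

/-- injectivity in degree zero -/
def RowGCT2 : Prop :=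
  ∀ (p : ℕ) (P U' I' U I M : Type) [Group P] [Fintype P] [AddCommGroup U']
    [DistribMulAction P U'] [AddCommGroup I'] [DistribMulAction P I'] [AddCommGroup U]
    [DistribMulAction P U] [AddCommGroup I] [DistribMulAction P I] [AddCommGroup M]
    [DistribMulAction P M] [Module.Free ℤ M] (a' : U' →+ I') (a : U →+ I) (nU : U' →+ U)
    (nI : I' →+ I), CTHyp p P a' a nU nI →
    ∀ (z : Hm M U') (ε : Hm M I') (β : Hm M U) (y : P → Hm M I), (∀ s : P, s • z = z) →
      Hm.post a' z = tr P ε → Hm.post nU z = tr P β →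
      Hm.post a β - Hm.post nI ε = ∑ s : P, (s • y s - y s) → ∃ u : Hm M U', z = tr P u

/-- the hypotheses on an extension inert at the primes dividing `l` -/
structure CoHyp (p l : ℕ) (P F F' : Type) [Group P] [Field F] [NumberField F] [Field F']
    [NumberField F'] [Algebra F F'] [MulSemiringAction P F] [MulSemiringAction P F'] : Prop where
  pp : p.Prime
  pg : IsPGroup p P
  faith : FaithfulSMul P F
  eqv : ∀ (s : P) x, algebraMap F F' (s • x) = s • algebraMap F F' x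
  im : ∃ i : F, i ^ 2 = -1 ∧ ∀ s : P, s • i = i
  hl : 2 ≤ l
  unr : ∃ θ : 𝓞 F, ∀ s : P, s ≠ 1 → ∀ w : Pr F l, s • θ - θ ∉ w.1.asIdeal
  res : ∀ (w : Pl F l) (x : 𝓞 F), ∃ y : 𝓞 F, (∀ s : P, s • y = y) ∧ x - y ∈ w.1.asIdeal
  gen : ∃ (α : 𝓞 F') (g : (𝓞 F)[X]), g.Monic ∧ aeval α g = 0 ∧ g.natDegree = Module.finrank F F' ∧
    (∀ w : Pl F l, Irreducible (g.map (Ideal.Quotient.mk w.1.asIdeal))) ∧ (∀ s : P, s • α = α) ∧
    ∀ (s : P) n, s • g.coeff n = g.coeff n
  dvd : Nat.card P ∣ Module.finrank F F'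

/-- base change to an inert extension kills cohomology in degrees one and zero -/
def RowCOREs : Prop :=
  ∀ (p l : ℕ) (P F F' M : Type) [Group P] [Fintype P] [Field F] [NumberField F] [Field F']
    [NumberField F'] [Algebra F F'] [MulSemiringAction P F] [MulSemiringAction P F']
    [AddCommGroup M] [DistribMulAction P M] [Module.Free ℤ M], CoHyp p l P F F' →
    (∀ c : P → Hm M (Un F), Cc c → (∀ s m, dv F l (c s m) = 0) →
      ∃ (t : Hm M (Un F')) (ε : Hm M (Dv F' l)),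
        (∀ s, Hm.post (Un.inc F F') (c s) = s • t - t) ∧ Hm.post (dv F' l) t = tr P ε) ∧
    ∀ (z : Hm M (Un F)) (ε : Hm M (Dv F l)), (∀ s : P, s • z = z) →
      Hm.post (dv F l) z = tr P ε → ∃ u : Hm M (Un F'), Hm.post (Un.inc F F') z = tr P u

/-! ### Local conditions -/

/-- principal units at `w` -/
def U1w {F : Type} [Field F] [NumberField F] (w : Sp F) : AddSubgroup (Un F) where
  carrier := {x | w.valuation F (x.val - 1) < 1}
  zero_mem' := by simp
  add_mem' := by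
    intro x y (hx : w.valuation F (x.val - 1) < 1) (hy : w.valuation F (y.val - 1) < 1)
    show w.valuation F ((x + y).val - 1) < 1
    have : (x + y).val - 1 = (x.val - 1) * (y.val - 1) + ((x.val - 1) + (y.val - 1)) := by
      rw [Un.val_add]; ring
    rw [this]
    refine Valuation.map_add_lt _ ?_ (Valuation.map_add_lt _ hx hy)
    rw [map_mul]
    exact mul_lt_one_of_lt_of_le hx hy.le
  neg_mem' := by
    intro x (hx : w.valuation F (x.val - 1) < 1)
    show w.valuation F ((-x).val - 1) < 1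
    have h1 : w.valuation F x.val = 1 := by
      simpa using Valuation.map_one_add_of_lt _ hx
    have : (-x).val - 1 = -(x.val⁻¹ * (x.val - 1)) := by
      rw [Un.val_neg, mul_sub, inv_mul_cancel₀ x.val_ne]; ring
    rwa [this, Valuation.map_neg, map_mul, map_inv₀, h1, inv_one, one_mul]

theorem mem_U1w {F : Type} [Field F] [NumberField F] {w : Sp F} {x : Un F} :
    x ∈ U1w w ↔ w.valuation F (x.val - 1) < 1 := Iff.rfl

/-- principal units at all primes dividing `q` -/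
def U1 (F : Type) [Field F] [NumberField F] (q : ℕ) : AddSubgroup (Un F) :=
  ⨅ w : Pl F q, U1w w.1

theorem mem_U1 {F : Type} [Field F] [NumberField F] {q : ℕ} {x : Un F} :
    x ∈ U1 F q ↔ ∀ w : Pl F q, x ∈ U1w w.1 := AddSubgroup.mem_iInf

/-- `q` is unramified -/
def Unq (F : Type) [Field F] [NumberField F] (q : ℕ) : Prop :=
  ∀ w : Pl F q, (q : 𝓞 F) ∉ w.1.asIdeal ^ 2

/-- `q` splits completely -/
def Spl (F : Type) [Field F] [NumberField F] (q : ℕ) : Prop :=
  Unq F q ∧ ∀ w : Pl F q, Ideal.absNorm w.1.asIdeal = q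

/-- a cyclic extension of degree `p ^ R` generated by a `q`-th root of unity, totally ramified at
the primes dividing `q` -/
structure Cy (p q R g0 : ℕ) (k : Type) {E Λ : Type} [Field k] [NumberField k] [Field E]
    [NumberField E] [Algebra k E] [Group Λ] [MulSemiringAction Λ E] (lam : Λ) (ζ : E) : Prop where
  pp : p.Prime
  qp : q.Prime
  gal : IsGaloisGroup Λ k E
  card : Nat.card Λ = p ^ R
  gen : ∀ s : Λ, s ∈ Subgroup.zpowers lam
  prim : IsPrimitiveRoot ζ q
  act : lam • ζ = ζ ^ g0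
  og : orderOf (g0 : ZMod q) = p ^ R
  ram : ∀ (W : Pl E q) (x : 𝓞 E), lam • x - x ∈ W.1.asIdeal
  im : ∃ i : k, i ^ 2 = -1

/-- the exponent of the Frobenius element -/
def IsPsi (p R g0 : ℕ) {k : Type} [Field k] [NumberField k] {q : ℕ} (ψ : Pr k q → ℕ) : Prop :=
  ∀ w, ψ w < p ^ R ∧ (Ideal.absNorm w.1.asIdeal : ZMod q) = (g0 : ZMod q) ^ ψ w

/-- the weighted degree -/
noncomputable def Ps {Y : Type} (ψ : Y → ℕ) : (Y →₀ ℤ) →+ ℤ :=
  Finsupp.liftAddHom fun w => AddMonoidHom.mulLeft (ψ w : ℤ)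

@[simp] theorem Ps_single {Y : Type} (ψ : Y → ℕ) (w : Y) (n : ℤ) :
    Ps ψ (Finsupp.single w n) = ψ w * n := Finsupp.liftAddHom_apply_single _ w n

/-- principal units -/
structure RowU1 : Prop where
  ray : ∀ (F : Type) [Field F] [NumberField F] (q M : ℕ), q.Prime → ∀ x ∈ U1 F q,
    ∃ t : ℕ, q ^ t • x ∈ Ray F q M
  le : ∀ (F : Type) [Field F] [NumberField F] (q M : ℕ), 1 ≤ M → Ray F q M ≤ U1 F q
  ord : ∀ (F : Type) [Field F] [NumberField F] (w : Sp F), ∀ x ∈ U1w w, ord w x = 0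
  inc : ∀ (k F : Type) [Field k] [NumberField k] [Field F] [NumberField F] [Algebra k F]
    (W : Sp F) (x : Un k), Un.inc k F x ∈ U1w W ↔ x ∈ U1w (und k W)
  inc' : ∀ (k F : Type) [Field k] [NumberField k] [Field F] [NumberField F] [Algebra k F]
    (q : ℕ) (x : Un k), Un.inc k F x ∈ U1 F q ↔ x ∈ U1 k q
  smul : ∀ (F G : Type) [Field F] [NumberField F] [Group G] [MulSemiringAction G F] (s : G)
    (w : Sp F) (x : Un F), s • x ∈ U1w (s • w) ↔ x ∈ U1w w
  smul' : ∀ (F G : Type) [Field F] [NumberField F] [Group G] [MulSemiringAction G F] (s : G)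
    (q : ℕ), ∀ x ∈ U1 F q, s • x ∈ U1 F q
  wa : ∀ (F : Type) [Field F] [NumberField F] (q : ℕ), q ≠ 0 → ∀ f : Pl F q → Un F,
    ∃ y : Un F, ∀ w : Pl F q, y - f w ∈ U1w w.1
  waFix : ∀ (F G : Type) [Field F] [NumberField F] [Group G] [Finite G] [MulSemiringAction G F]
    [FaithfulSMul G F] (σ : G) (q : ℕ), q ≠ 0 → (∀ w : Pl F q, σ • w = w) → ∀ f : Pl F q → Un F,
    (∀ w, σ • f w = f w) → ∃ y : Un F, σ • y = y ∧ ∀ w : Pl F q, y - f w ∈ U1w w.1
  triv : ∀ (F G : Type) [Field F] [NumberField F] [Group G] [MulSemiringAction G F] (s : G)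
    (w : Sp F), (∀ x : 𝓞 F, s • x - x ∈ w.asIdeal) →
    s • w = w ∧ ∀ u : Un F, H85.ord w u = 0 → s • u - u ∈ U1w w

/-- Frobenius elements -/
def RowFR : Prop :=
  ∀ (p q R g0 : ℕ) (k E Λ : Type) [Field k] [NumberField k] [Field E] [NumberField E]
    [Algebra k E] [Group Λ] [MulSemiringAction Λ E] (lam : Λ) (ζ : E), Cy p q R g0 k lam ζ →
    (∃ ψ : Pr k q → ℕ, IsPsi p R g0 ψ) ∧ Unr k E q ∧ ∀ ψ : Pr k q → ℕ, IsPsi p R g0 ψ →
      (∀ (W : Pr E q) (n : ℕ), lam ^ n • W = W ↔ (ψ (W.und k)).gcd (p ^ R) ∣ n) ∧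
      (∀ W : Pr E q, W.1.asIdeal.inertiaDeg (𝓞 k) * (ψ (W.und k)).gcd (p ^ R) = p ^ R) ∧
      (∀ (W : Pr E q) (j : ℕ), p ^ j ∣ orderOf (Ideal.absNorm (W.und k).1.asIdeal : ZMod q) →
        lam ^ p ^ (R - j) • W = W) ∧
      (∀ D : Dv k q, D ∈ (nrD E q k).range ↔ ∀ w, ((p ^ R : ℕ) : ℤ) ∣ ψ w * D w) ∧
      ∀ j ≤ R, ∀ (x : Un k) (y : Un E), lam ^ p ^ j • y = y → Un.inc k E x = Nm lam (p ^ j) y →
        ∀ w : Pr k q, ((p ^ j : ℕ) : ℤ) ∣ ψ w * ord w.1 x

/-- inert primes -/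
def RowINERT : Prop :=
  ∀ (p a b l : ℕ) (E G Λ : Type) [Field E] [NumberField E] [Group G] [Group Λ]
    [MulSemiringAction G E] [MulSemiringAction Λ E] (g : G) (s : Λ), p.Prime → l ≠ 0 →
    g ^ p ^ a = 1 → s ^ p ^ b = 1 → (∀ x : E, g • s • x = s • g • x) →
    ∃ W : Pr E l, g • s • W = W

/-- the sum formula -/
def RowHA1 : Prop :=
  ∀ (p q R g0 : ℕ) (k : Type) [Field k] [NumberField k] (ψ : Pr k q → ℕ), q.Prime →
    (∃ i : k, i ^ 2 = -1) → orderOf (g0 : ZMod q) = p ^ R → p ≠ 0 → IsPsi p R g0 ψ →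
    ∀ x ∈ U1 k q, ((p ^ R : ℕ) : ℤ) ∣ Ps ψ (dv k q x)

/-- prescribed local invariants -/
def RowHA2 : Prop :=
  ∀ (p q R g0 : ℕ) (k E Λ : Type) [Field k] [NumberField k] [Field E] [NumberField E]
    [Algebra k E] [Group Λ] [MulSemiringAction Λ E] (lam : Λ) (ζ : E) (ψ : Pr k q → ℕ),
    Cy p q R g0 k lam ζ → IsPsi p R g0 ψ → ∀ D : Dv k q, ((p ^ R : ℕ) : ℤ) ∣ Ps ψ D →
    ∃ x ∈ U1 k q, ∀ w : Pr k q, ((p ^ R : ℕ) : ℤ) ∣ ψ w * (D w - ord w.1 x)

/-- the norm theorem -/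
def RowHA3 : Prop :=
  ∀ (p q R g0 : ℕ) (k E Λ : Type) [Field k] [NumberField k] [Field E] [NumberField E]
    [Algebra k E] [Group Λ] [MulSemiringAction Λ E] (lam : Λ) (ζ : E) (ψ : Pr k q → ℕ),
    Cy p q R g0 k lam ζ → IsPsi p R g0 ψ → ∀ b ∈ U1 k q,
    (∀ w : Pr k q, ((p ^ R : ℕ) : ℤ) ∣ ψ w * ord w.1 b) →
    ∃ y : Un E, Un.inc k E b = Nm lam (p ^ R) y

/-- a generator of an extension in which the primes dividing `l` are inert -/
def RowINP : Prop :=
  ∀ (k E : Type) [Field k] [NumberField k] [Field E] [NumberField E] [Algebra k E] (l : ℕ), 2 ≤ l →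
    (∀ W : Pl E l, W.1.asIdeal.inertiaDeg (𝓞 k) = Module.finrank k E) →
    ∃ (α : 𝓞 E) (g : (𝓞 k)[X]), g.Monic ∧ aeval α g = 0 ∧ g.natDegree = Module.finrank k E ∧
      ∀ w : Pl k l, Irreducible (g.map (Ideal.Quotient.mk w.1.asIdeal))

/-- ramification and residue degrees -/
structure RowMS : Prop where
  fexp : ∀ (k E G : Type) [Field k] [NumberField k] [Field E] [NumberField E] [Algebra k E]
    [Group G] [MulSemiringAction G E] [IsGaloisGroup G k E] (n : ℕ), (∀ g : G, g ^ n = 1) →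
    ∀ W : Sp E, W.asIdeal.inertiaDeg (𝓞 k) ∣ n
  trans : ∀ (k E G : Type) [Field k] [NumberField k] [Field E] [NumberField E] [Algebra k E]
    [Group G] [MulSemiringAction G E] [IsGaloisGroup G k E] (W W' : Sp E), und k W = und k W' →
    ∃ g : G, g • W = W'
  free : ∀ (F G : Type) [Field F] [NumberField F] [Group G] [MulSemiringAction G F] (q : ℕ),
    q.Prime → Spl F q → ∀ (g : G) (w : Pl F q), g • w = w → ∀ x : F, g • x = x
  ramq : ∀ (k E G : Type) [Field k] [NumberField k] [Field E] [NumberField E] [Algebra k E]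
    [Group G] [MulSemiringAction G E] [IsGaloisGroup G k E] (q : ℕ) (ζ : E), q.Prime →
    IsPrimitiveRoot ζ q → (∀ g : G, g • ζ = ζ → g = 1) → Unq k q →
    Nat.card G = q - 1 ∧ ∀ W : Pl E q, W.1.asIdeal.inertiaDeg (𝓞 k) = 1 ∧
      ∀ (g : G) (x : 𝓞 E), g • x - x ∈ W.1.asIdeal
  unq : ∀ (k E : Type) [Field k] [NumberField k] [Field E] [NumberField E] [Algebra k E] (q : ℕ)
    (α : 𝓞 E) (g : (𝓞 k)[X]), q.Prime → g.Monic → aeval α g = 0 →
    g.natDegree = Module.finrank k E →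
    (∀ w : Pl k q, Irreducible (g.map (Ideal.Quotient.mk w.1.asIdeal))) → Unq k q → Unq E q
  nrm : ∀ (k E : Type) [Field k] [NumberField k] [Field E] [NumberField E] [Algebra k E]
    (p q a j : ℕ) (W : Sp E), p.Prime → q.Prime → a.Prime → (a : 𝓞 E) ∈ W.asIdeal →
    (W.asIdeal.inertiaDeg (𝓞 k)).Coprime p →
    p ^ (j + Module.finrank ℚ k) ∣ orderOf (a : ZMod q) → a.Coprime q →
    p ^ j ∣ orderOf (Ideal.absNorm W.asIdeal : ZMod q)
  one : ∀ (k E : Type) [Field k] [NumberField k] [Field E] [NumberField E] [Algebra k E] (q : ℕ)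
    (W : Sp E), q.Prime → Ideal.absNorm W.asIdeal = q → W.asIdeal.inertiaDeg (𝓞 k) = 1
  tower : ∀ (k F E : Type) [Field k] [NumberField k] [Field F] [NumberField F] [Field E]
    [NumberField E] [Algebra k F] [Algebra F E] [Algebra k E] [IsScalarTower k F E] (W : Sp E),
    und k (und F W) = und k W ∧ W.asIdeal.inertiaDeg (𝓞 k) =
      (und F W).asIdeal.inertiaDeg (𝓞 k) * W.asIdeal.inertiaDeg (𝓞 F)
  prm : ∀ (F : Type) [Field F] [NumberField F] (w : Sp F),
    ((Ideal.absNorm w.asIdeal : ℕ) : 𝓞 F) ∈ w.asIdeal ∧ Ideal.absNorm w.asIdeal ≠ 0 ∧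
    ∀ l : ℕ, l ≠ 0 → (l : 𝓞 F) ∈ w.asIdeal → ∃ a : ℕ, a.Prime ∧ a ∣ l ∧ (a : 𝓞 F) ∈ w.asIdeal

/-- a Kummer extension of a cyclotomic field -/
def RowKUM : Prop :=
  ∀ (p a K b : ℕ) (ζ α : Om), p.Prime → p ≠ 2 → b.Prime → a ≤ K → IsPrimitiveRoot ζ (p ^ K) →
    α ^ p ^ a = b →
    (MulAction.stabilizer Ga α).relIndex (MulAction.stabilizer Ga ζ) = p ^ a

/-- the auxiliary prime -/
def RowQS : Prop :=
  ∀ (p l j : ℕ) (N : Subgroup Ga) [Ope N], p.Prime → p ≠ 2 → l ≠ 0 →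
    ∃ q : ℕ, q.Prime ∧ q.Coprime l ∧ Spl (Fx N) q ∧
      ∀ b : ℕ, b.Prime → b ∣ l → p ^ j ∣ orderOf (b : ZMod q)

/-! ### First half: local invariants of a class -/

/-- a finite group acting on a cyclic extension -/
structure Fr (p q R g0 : ℕ) (k G : Type) {E Λ : Type} [Field k] [NumberField k] [Field E]
    [NumberField E] [Algebra k E] [Group Λ] [MulSemiringAction Λ E] [Group G]
    [MulSemiringAction G k] [MulSemiringAction G E] (lam : Λ) (ζ : E) : Prop
    extends Cy p q R g0 k lam ζ where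
  comm : ∀ (g : G) (s : Λ) (x : E), g • s • x = s • g • x
  eqv : ∀ (g : G) (x : k), algebraMap k E (g • x) = g • algebraMap k E x

/-- the hypotheses at the primes dividing `l` -/
structure Lh (p q l i0 : ℕ) (k G : Type) (E : Type) {Λ : Type} [Field k] [NumberField k] [Field E]
    [NumberField E] [Group Λ] [MulSemiringAction Λ E] [Group G] [MulSemiringAction G k]
    (lam : Λ) : Prop where
  hl : 2 ≤ l
  cop : q.Coprime l
  im : ∃ i : k, i ^ 2 = -1 ∧ ∀ g : G, g • i = i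
  unr : ∃ θ : 𝓞 k, ∀ g : G, g ≠ 1 → ∀ w : Pr k l, g • θ - θ ∉ w.1.asIdeal
  fix : ∀ W : Pl E l, lam ^ p ^ i0 • W = W

/-- two levels of the cyclic extension -/
def RowTOW : Prop :=
  ∀ (p q R g0 l i0 i r : ℕ) (k P E Λ F F' : Type) [Field k] [NumberField k] [Field E]
    [NumberField E] [Algebra k E] [Group Λ] [MulSemiringAction Λ E] [Group P] [Finite P]
    [MulSemiringAction P k] [MulSemiringAction P E] (lam : Λ) (ζ : E) [Field F] [NumberField F]
    [Field F'] [NumberField F'] [Algebra F F'] [Algebra F' E] [Algebra F E] [IsScalarTower F F' E]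
    [MulSemiringAction P F] [MulSemiringAction P F']
    [IsGaloisGroup (Subgroup.zpowers (lam ^ p ^ i)) F E]
    [IsGaloisGroup (Subgroup.zpowers (lam ^ p ^ (i + r))) F' E],
    Fr p q R g0 k P lam ζ → Lh p q l i0 k P E lam → Nat.card P = p ^ r → i0 ≤ i → i + 2 * r ≤ R →
    (∀ (s : P) (x : F), algebraMap F E (s • x) = s • algebraMap F E x) →
    (∀ (s : P) (x : F'), algebraMap F' E (s • x) = s • algebraMap F' E x) → CoHyp p l P F F'

/-- the class dies at a low level -/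
def RowKILL : Prop :=
  ∀ (p q R g0 l i0 r h : ℕ) (k G E Λ M : Type) [Field k] [NumberField k] [Field E]
    [NumberField E] [Algebra k E] [Group Λ] [MulSemiringAction Λ E] [Group G] [Fintype G]
    [MulSemiringAction G k] [MulSemiringAction G E] (lam : Λ) (ζ : E) [AddCommGroup M]
    [DistribMulAction G M] [Module.Free ℤ M] (c : G → Hm M (Un k)),
    Fr p q R g0 k G lam ζ → Lh p q l i0 k G E lam → Nat.card G = h * p ^ r → h.Coprime p →
    i0 + 3 * r ≤ R → Cc c → (∀ g m, dv k l (c g m) = 0) →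
    ∃ t s : Hm M (Un E), (∀ m, lam ^ p ^ (i0 + 2 * r) • t m = t m) ∧
      (∀ m, lam ^ p ^ (i0 + 2 * r) • s m = s m) ∧
      (∀ g, h • Hm.post (Un.inc k E) (c g) = g • t - t) ∧ Hm.post (Df lam) t = tr G s

/-- adjustment at the primes dividing `q` -/
def RowADJ : Prop :=
  ∀ (p q R g0 n : ℕ) (k G E Λ M : Type) [Field k] [NumberField k] [Field E]
    [NumberField E] [Algebra k E] [Group Λ] [MulSemiringAction Λ E] [Group G] [Fintype G]
    [MulSemiringAction G k] [MulSemiringAction G E] (lam : Λ) (ζ : E) [AddCommGroup M]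
    [DistribMulAction G M] [Module.Free ℤ M] (s : Hm M (Un E)),
    Fr p q R g0 k G lam ζ → (∀ (g : G) (W : Pl E q), g • W = W → g = 1) →
    (∀ m, lam ^ n • s m = s m) → tr G (Hm.post (Nm lam n) s) = 0 →
    ∃ s' : Hm M (Un E), (∀ m, lam ^ n • s' m = s' m) ∧ tr G s' = tr G s ∧
      ∀ m, Nm lam n (s' m) ∈ U1 E q

/-- extraction of the invariants -/
def RowPRE : Prop :=
  ∀ (p R j r h : ℕ) (G Y M : Type) [Group G] [Fintype G] [MulAction G Y] [AddCommGroup M]
    [DistribMulAction G M] [Module.Finite ℤ M] (ψ : Y → ℕ) (A : Hm M (Y →₀ ℤ)), p ≠ 0 →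
    Nat.card G = h * p ^ r → j + 3 * r ≤ R → (∀ (g : G) w, ψ (g • w) = ψ w) → tr G A = 0 →
    (∀ m w, ((p ^ j : ℕ) : ℤ) ∣ ψ w * A m w) → (∀ m, ((p ^ R : ℕ) : ℤ) ∣ Ps ψ (A m)) →
    ∃ (S : Finset Y) (θ : Dg Y (Du M)), (∀ (g : G), ∀ w ∈ S, g • w ∈ S) ∧
      (∀ w ∈ S, ¬ p ^ (R - r) ∣ ψ w) ∧ (∀ w ∉ S, θ w = 0) ∧ Dg.deg θ = 0 ∧ tr G θ = 0 ∧
      ∀ m w, ((p ^ R : ℕ) : ℤ) ∣ ψ w * ((h * p ^ (R - j - r) : ℕ) * A m w) -
        (p ^ (R - r) : ℕ) * Zt.val (θ w m)

/-- a class described by its local invariants -/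
def Dat (p R r : ℕ) {q : ℕ} {k G : Type} (E : Type) {Λ M : Type} [Field k] [NumberField k] [Field E]
    [NumberField E] [Algebra k E] [Group Λ] [MulSemiringAction Λ E] [Group G] [Fintype G]
    [MulSemiringAction G k] [MulSemiringAction G E] (lam : Λ) [AddCommGroup M]
    [DistribMulAction G M] (ψ : Pr k q → ℕ) (c : G → Hm M (Un k)) (S : Finset (Pr k q)) : Prop :=
  ∃ (h : ℕ) (t s : Hm M (Un E)) (b : Hm M (Un k)) (θ : Dg (Pr k q) (Du M)), h.Coprime p ∧
    (∀ g, h • Hm.post (Un.inc k E) (c g) = g • t - t) ∧ Hm.post (Df lam) t = tr G s ∧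
    Hm.post (Nm lam (p ^ R)) s = p ^ r • Hm.post (Un.inc k E) b ∧ (∀ m, b m ∈ U1 k q) ∧
    tr G b = 0 ∧ (∀ (g : G), ∀ w ∈ S, g • w ∈ S) ∧ (∀ w ∈ S, ¬ p ^ (R - r) ∣ ψ w) ∧
    (∀ w ∉ S, θ w = 0) ∧ Dg.deg θ = 0 ∧ tr G θ = 0 ∧
    ∀ m w, ((p ^ R : ℕ) : ℤ) ∣ ψ w * ord w.1 (b m) - (p ^ (R - r) : ℕ) * Zt.val (θ w m)

/-- the first half -/
def RowPART1 : Prop :=
  ∀ (p q R g0 l i0 r h : ℕ) (k G E Λ M : Type) [Field k] [NumberField k] [Field E]
    [NumberField E] [Algebra k E] [Group Λ] [MulSemiringAction Λ E] [Group G] [Fintype G]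
    [MulSemiringAction G k] [MulSemiringAction G E] (lam : Λ) (ζ : E) [AddCommGroup M]
    [DistribMulAction G M] [Module.Free ℤ M] [Module.Finite ℤ M] (ψ : Pr k q → ℕ)
    (c : G → Hm M (Un k)), Fr p q R g0 k G lam ζ → Lh p q l i0 k G E lam →
    (∀ (g : G) (W : Pl E q), g • W = W → g = 1) → IsPsi p R g0 ψ → Nat.card G = h * p ^ r →
    h.Coprime p → i0 + 5 * r ≤ R → Cc c → (∀ g m, dv k l (c g m) = 0) →
    ∃ S, Dat p R r E lam ψ c S

/-! ### Second half: base change -/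

/-- the properties of lattices in small permutation modules -/
structure XH (p : ℕ) (G N : Type) [Group G] [AddCommGroup N] [DistribMulAction G N] : Prop where
  tf : ∀ (a : ℕ) (n : N), a ≠ 0 → a • n = 0 → n = 0
  ab : ∀ Q : Subgroup G, IsPGroup p Q → ∀ g ∈ Q, g ^ p = 1 ∧ ∀ g' ∈ Q, g * g' = g' * g
  gen : ∀ Q Q' : Subgroup G, IsPGroup p Q → ¬ Q ≤ Q' → ∃ τ ∈ Q, τ ∉ Q' ∧
    (∀ g ∈ Q, ∀ n : N, Nm τ p (g • n) = Nm τ p n) ∧
    ∀ σ ∈ Q, ∀ n : N, Nm σ p n = 0 → ∃ n' : N, p • n = Df σ (Df τ n')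

/-- duals of sublattices of small permutation modules -/
def RowXL : Prop :=
  ∀ (p : ℕ) (G X M : Type) [Group G] [Finite G] [Fintype X] [MulAction G X] [AddCommGroup M]
    [DistribMulAction G M] (j : M →+ (X →₀ ℤ)), p.Prime → Fintype.card X < p * (p - 1) →
    (∀ g : G, (∀ x : X, g • x = x) → g = 1) → Function.Injective j →
    (∀ (g : G) m, j (g • m) = g • j m) → XH p G (Du M)

/-- summation over orbits -/
def RowORB : Prop :=
  ∀ (G Y N B : Type) [Group G] [Fintype G] [MulAction G Y] [AddCommGroup N] [DistribMulAction G N]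
    [AddCommGroup B] (S : Finset Y) (f : Y → N →+ B) (θ : Dg Y N), (∀ (g : G), ∀ w ∈ S, g • w ∈ S) →
    (∀ (g : G), ∀ w ∈ S, ∀ n, f (g • w) (g • n) = f w n) →
    (∀ w ∈ S, ∀ (D : Finset G) (n : N), (∀ g, g ∈ D ↔ g • w = w) → ∑ g ∈ D, g • n = 0 →
      f w n = 0) → (∀ w ∉ S, θ w = 0) → tr G θ = 0 → ∑ w ∈ S, f w (θ w) = 0

/-- base change kills the invariants -/
def RowCON : Prop :=
  ∀ (p : ℕ) (G N Y Y' : Type) [Group G] [Fintype G] [AddCommGroup N] [DistribMulAction G N]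
    [MulAction G Y] [MulAction G Y'] (ρ : Y' → Y) (μ : Y' → ℕ) (S : Finset Y) (S' : Set Y')
    (θ : Dg Y N), p.Prime → p ∣ Nat.card G → XH p G N → (∀ (g : G) y, ρ (g • y) = g • ρ y) →
    (∀ (g : G) y, μ (g • y) = μ y) → (∀ (g : G), ∀ w ∈ S, g • w ∈ S) →
    (∀ (g : G), ∀ y ∈ S', g • y ∈ S') →
    (∀ w ∈ S, ∃ Φ : Finset Y', (∀ y, y ∈ Φ ↔ ρ y = w) ∧ ∑ y ∈ Φ, μ y = p ∧ (∀ y ∈ Φ, y ∈ S') ∧
      ∀ y ∈ Φ, ∀ y' ∈ Φ, ∃ g : G, g • y = y') →
    (∀ g : G, g ^ p = 1 → ∃ y ∈ S', g • y = y) → (∀ w ∉ S, θ w = 0) → Dg.deg θ = 0 → tr G θ = 0 →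
    ∃ (h : ℕ) (x : G → Dg Y' N), h.Coprime p ∧ (∀ g, (∀ y ∉ S', x g y = 0) ∧ Dg.deg (x g) = 0) ∧
      ∀ y, (h * μ y) • θ (ρ y) = (∑ g : G, (g • x g - x g)) y

/-- lattice versions of the existence theorem, the norm theorem and Hilbert's theorem -/
def RowHAM : Prop :=
  ∀ (p q R g0 : ℕ) (k E Λ M : Type) [Field k] [NumberField k] [Field E] [NumberField E]
    [Algebra k E] [Group Λ] [MulSemiringAction Λ E] (lam : Λ) (ζ : E) (ψ : Pr k q → ℕ)
    [AddCommGroup M] [Module.Free ℤ M], Cy p q R g0 k lam ζ → IsPsi p R g0 ψ →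
    (∀ (j : ℕ) (x : Dg (Pr k q) (Du M)), (∀ w, p ^ (j + 1) ∣ ψ w → x w = 0) →
      Dg.deg x = 0 → ∃ e : Hm M (Un k), (∀ m, e m ∈ U1 k q) ∧
        ∀ m w, ((p ^ R : ℕ) : ℤ) ∣ ψ w * ord w.1 (e m) - (p ^ j : ℕ) * Zt.val (x w m)) ∧
    (∀ b : Hm M (Un k), (∀ m, b m ∈ U1 k q) →
      (∀ m (w : Pr k q), ((p ^ R : ℕ) : ℤ) ∣ ψ w * ord w.1 (b m)) →
      ∃ u : Hm M (Un E), Hm.post (Un.inc k E) b = Hm.post (Nm lam (p ^ R)) u) ∧
    ∀ x : Hm M (Un E), Hm.post (Nm lam (p ^ R)) x = 0 → ∃ u, x = Hm.post (Df lam) u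

/-- the final computation -/
def RowALG : Prop :=
  ∀ (G B : Type) [Group G] [Fintype G] [AddCommGroup B] [DistribMulAction G B] (d ν : B →+ B)
    (n h h1 : ℕ) (t s b u : B) (e e' : G → B), Nat.card G = h * n →
    (∀ (g : G) x, d (g • x) = g • d x) → (∀ (g : G) x, ν (g • x) = g • ν x) →
    (∀ x, ν x = 0 → ∃ y, x = d y) → d t = tr G s → ν s = n • b → tr G b = 0 →
    h1 • b - ∑ g : G, (g • e g - e g) = ν u → (∀ g, n • e g = ν (e' g)) →
    ∃ t', d t' = 0 ∧ ∀ g : G, g • t' - t' = (h * h1) • (g • t - t)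

/-- the second half -/
def RowPART2 : Prop :=
  ∀ (p q R g0 r h : ℕ) (k G E Λ k' E' Λ' M : Type) [Field k] [NumberField k] [Field E]
    [NumberField E] [Algebra k E] [Group Λ] [MulSemiringAction Λ E] [Group G] [Fintype G]
    [MulSemiringAction G k] [MulSemiringAction G E] (lam : Λ) [Field k'] [NumberField k']
    [Field E'] [NumberField E'] [Algebra k' E'] [Group Λ'] [MulSemiringAction Λ' E']
    [MulSemiringAction G k'] [MulSemiringAction G E'] (lam' : Λ') (ζ' : E') [Algebra k k']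
    [Algebra E E'] [AddCommGroup M] [DistribMulAction G M] [Module.Free ℤ M] (ψ : Pr k q → ℕ)
    (c : G → Hm M (Un k)) (S : Finset (Pr k q)), Fr p q R g0 k' G lam' ζ' → IsPsi p R g0 ψ →
    (∀ x : k, algebraMap E E' (algebraMap k E x) = algebraMap k' E' (algebraMap k k' x)) →
    (∀ (g : G) (x : k), algebraMap k k' (g • x) = g • algebraMap k k' x) →
    (∀ (g : G) (x : E), algebraMap E E' (g • x) = g • algebraMap E E' x) →
    (∀ x : E, algebraMap E E' (lam • x) = lam' • algebraMap E E' x) →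
    Module.finrank k k' = p → Nat.card G = h * p ^ r → h.Coprime p → 1 ≤ r → r + 1 ≤ R →
    XH p G (Du M) → (∀ y y' : Pr k' q, y.und k ∈ S → y.und k = y'.und k → ∃ g : G, g • y = y') →
    Dat p R r E lam ψ c S →
    ∃ (h' : ℕ) (t' : Hm M (Un E')), h'.Coprime p ∧ (∀ m, lam' • t' m = t' m) ∧
      ∀ g, h' • Hm.post ((Un.inc k' E').comp (Un.inc k k')) (c g) = g • t' - t'

end Pool.Agent.MP_db5b97_nt.H31
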